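import Pool.Agent.Helper81.MCG.QM

set_option autoImplicit false

namespace Pool.Agent.Helper81.MCG

/-! ### The group of order automorphisms of ℚ has no nonzero homogeneous quasimorphism -/

/-- `Aut(ℚ, <)`. -/
abbrev AQ : Type := ℚ ≃o ℚ

lemma AQ.lt_iff (p : AQ) {x y : ℚ} : p x < p y ↔ x < y := p.lt_iff_lt

lemma AQ.le_iff (p : AQ) {x y : ℚ} : p x ≤ p y ↔ x ≤ y := p.le_iff_le

lemma AQ.mul_apply (p q : AQ) (x : ℚ) : (p * q) x = p (q x) := rfl

lemma pow_ge (p : AQ) (hp : ∀ x, x + 1 ≤ p x) (n : ℕ) (x : ℚ) : x + n ≤ (p ^ n) x := by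
  induction n generalizing x with
  | zero => simp
  | succ n ih =>
    rw [pow_succ, AQ.mul_apply]
    have h1 := ih (p x)
    have h2 := hp x
    push_cast
    linarith

lemma zpow_le_of_le (p : AQ) (hp : ∀ x, x + 1 ≤ p x) {m n : ℤ} (hmn : m ≤ n) (x : ℚ) :
    (p ^ m) x ≤ (p ^ n) x := by
  obtain ⟨k, rfl⟩ := Int.le.dest hmn
  rw [zpow_add, AQ.mul_apply, AQ.le_iff, zpow_natCast]
  have := pow_ge p hp k x
  have hk : (0 : ℚ) ≤ k := by positivity
  linarith

lemma conj_translation (p : AQ) (hp : ∀ x, x + 1 ≤ p x) :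
    ∃ w : AQ, ∀ x, w (x + 1) = p (w x) := by
  set s : ℚ := p 0 with hs
  have hs1 : 1 ≤ s := by have := hp 0; linarith
  have hs0 : 0 < s := by linarith
  set w : ℚ → ℚ := fun x => (p ^ ⌊x⌋) (s * Int.fract x) with hw
  have hmono : StrictMono w := by
    intro x y hxy
    simp only [hw]
    rcases lt_or_eq_of_le (Int.floor_mono hxy.le) with hlt | heq
    · have h1 : s * Int.fract x < s := by
        have := Int.fract_lt_one x
        nlinarith
      have h2 : (p ^ ⌊x⌋) (s * Int.fract x) < (p ^ (⌊x⌋ + 1)) 0 := by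
        rw [zpow_add_one, AQ.mul_apply, AQ.lt_iff]
        exact h1
      have h3 : (p ^ (⌊x⌋ + 1)) 0 ≤ (p ^ ⌊y⌋) 0 := zpow_le_of_le p hp (by omega) 0
      have h4 : (p ^ ⌊y⌋) 0 ≤ (p ^ ⌊y⌋) (s * Int.fract y) := by
        rw [AQ.le_iff]
        have := Int.fract_nonneg y
        positivity
      linarith
    · rw [heq, AQ.lt_iff]
      apply mul_lt_mul_of_pos_left _ hs0
      have h1 := Int.floor_add_fract x
      have h2 := Int.floor_add_fract y
      have h3 : ((⌊x⌋ : ℤ) : ℚ) = ⌊y⌋ := by rw [heq]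
      linarith
  have hsurj : Function.Surjective w := by
    intro y
    have hb : ∃ b : ℤ, ∀ n : ℤ, (p ^ n) 0 ≤ y → n ≤ b := by
      refine ⟨⌈|y|⌉, fun n hn => ?_⟩
      by_contra hcon
      push Not at hcon
      have h0 : 0 ≤ ⌈|y|⌉ := Int.ceil_nonneg (abs_nonneg y)
      obtain ⟨k, hk⟩ := Int.eq_ofNat_of_zero_le (by omega : 0 ≤ n)
      subst hk
      rw [zpow_natCast] at hn
      have h1 := pow_ge p hp k 0
      have h2 : (⌈|y|⌉ : ℚ) < k := by exact_mod_cast hcon
      have h3 := Int.le_ceil (|y|)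
      have h4 := le_abs_self y
      linarith
    have hne : ∃ n : ℤ, (p ^ n) 0 ≤ y := by
      obtain ⟨k, hk⟩ := exists_nat_ge (|y|)
      refine ⟨-(k : ℤ), ?_⟩
      have h1 := pow_ge p hp k ((p ^ (-(k : ℤ))) 0)
      have h2 : (p ^ k) ((p ^ (-(k : ℤ))) 0) = 0 := by
        rw [← AQ.mul_apply, ← zpow_natCast p k, ← zpow_add]
        simp
      rw [h2] at h1
      have h4 := neg_abs_le y
      linarith
    obtain ⟨n, hn1, hn2⟩ := Int.exists_greatest_of_bdd hb hne
    have hn3 : y < (p ^ (n + 1)) 0 := by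
      by_contra hcon
      push Not at hcon
      have := hn2 _ hcon
      omega
    set u : ℚ := (p ^ (-n)) y with hu
    have hu1 : (p ^ n) u = y := by
      rw [hu, ← AQ.mul_apply, ← zpow_add]; simp
    have hu2 : 0 ≤ u := by
      rw [← AQ.le_iff (p ^ n), hu1]; exact hn1
    have hu3 : u < s := by
      rw [← AQ.lt_iff (p ^ n), hu1]
      rw [zpow_add_one, AQ.mul_apply] at hn3
      exact hn3
    have hfr : 0 ≤ u / s ∧ u / s < 1 := ⟨by positivity, by rw [div_lt_one hs0]; exact hu3⟩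
    refine ⟨n + u / s, ?_⟩
    have hfl : ⌊(n : ℚ) + u / s⌋ = n := by
      rw [Int.floor_intCast_add]
      have : ⌊u / s⌋ = 0 := Int.floor_eq_zero_iff.mpr hfr
      rw [this]; simp
    simp only [hw]
    rw [hfl, Int.fract_intCast_add, Int.fract_eq_self.mpr hfr]
    have : s * (u / s) = u := by field_simp
    rw [this]; exact hu1
  refine ⟨StrictMono.orderIsoOfSurjective w hmono hsurj, fun x => ?_⟩
  simp only [StrictMono.coe_orderIsoOfSurjective, hw]
  rw [Int.floor_add_one, Int.fract_add_one, zpow_add, zpow_one]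
  have : Commute (p ^ ⌊x⌋) p := (Commute.refl p).zpow_left _
  rw [this.eq, AQ.mul_apply]

/-- the maximum of two automorphisms -/
lemma exists_max (a b : AQ) : ∃ h : AQ, ∀ x, h x = max (a x) (b x) := by
  have hmono : StrictMono fun x => max (a x) (b x) := by
    intro x y hxy
    exact max_lt_max (a.strictMono hxy) (b.strictMono hxy)
  have hsurj : Function.Surjective fun x => max (a x) (b x) := by
    intro y
    rcases le_total (a.symm y) (b.symm y) with h | h
    · refine ⟨a.symm y, ?_⟩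
      have : b (a.symm y) ≤ y := by
        have := b.monotone h
        simpa using this
      simp [this]
    · refine ⟨b.symm y, ?_⟩
      have : a (b.symm y) ≤ y := by
        have := a.monotone h
        simpa using this
      simp [this]
  exact ⟨StrictMono.orderIsoOfSurjective _ hmono hsurj, fun x => rfl⟩

theorem qm_AQ (ψ : homQM AQ) (f : AQ) : ψ.1 f = 0 := by
  obtain ⟨D, hD0, hD⟩ := qm_defect ψ
  -- `ψ` is constant on automorphisms moving every point by at least one
  have key : ∀ p : AQ, (∀ x, x + 1 ≤ p x) → ψ.1 p = ψ.1 (OrderIso.addRight (1 : ℚ)) := by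
    intro p hp
    obtain ⟨w, hw⟩ := conj_translation p hp
    have : p = w * (OrderIso.addRight (1 : ℚ)) * w⁻¹ := by
      rw [eq_mul_inv_iff_mul_eq]
      ext x
      exact (hw x).symm
    rw [this, qm_conj]
  apply qm_bounded ψ f D
  intro n
  set g : AQ := f ^ n with hg
  obtain ⟨h, hh⟩ := exists_max (OrderIso.addRight (1 : ℚ)) (g⁻¹ * OrderIso.addRight (1 : ℚ))
  have h1 : ∀ x, x + 1 ≤ h x := by
    intro x; rw [hh]; exact le_max_left _ _
  have h2 : ∀ x, x + 1 ≤ (g * h) x := by
    intro x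
    have h3 : g⁻¹ (x + 1) ≤ h x := by rw [hh]; exact le_max_right _ _
    have h4 := g.monotone h3
    have h5 : g (g⁻¹ (x + 1)) = x + 1 := by
      rw [← AQ.mul_apply]; simp
    rw [h5] at h4
    exact h4
  have h6 := hD (g * h) h⁻¹
  rw [mul_inv_cancel_right, qm_inv, key _ h1, key _ h2] at h6
  simpa using h6

end Pool.Agent.Helper81.MCG
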