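import Mathlib

set_option autoImplicit false

namespace Pool.Agent.Helper81.MCG

/-! ### Amenability and homogeneous quasimorphisms -/

/-- A (discrete) group is amenable if it carries a left invariant finitely additive probability
measure defined on all subsets. -/
def Amenable (G : Type*) [Group G] : Prop :=
  ∃ m : Set G → ℝ, (∀ A, 0 ≤ m A) ∧ m Set.univ = 1 ∧
    (∀ A B, Disjoint A B → m (A ∪ B) = m A + m B) ∧
    ∀ (g : G) (A : Set G), m ((fun x => g * x) '' A) = m A

/-- The real vector space `Q(G)` of homogeneous quasimorphisms on `G`. -/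
def homQM (G : Type*) [Group G] : Submodule ℝ (G → ℝ) where
  carrier := {φ | (∃ D : ℝ, ∀ g h, |φ (g * h) - φ g - φ h| ≤ D) ∧ ∀ (g : G) (n : ℤ), φ (g ^ n) = n * φ g}
  add_mem' := by
    rintro φ ψ ⟨⟨D, hD⟩, hφ⟩ ⟨⟨E, hE⟩, hψ⟩
    refine ⟨⟨D + E, fun g h => ?_⟩, fun g n => ?_⟩
    · simp only [Pi.add_apply]
      have h1 := abs_add_le (φ (g * h) - φ g - φ h) (ψ (g * h) - ψ g - ψ h)
      have e : φ (g * h) + ψ (g * h) - (φ g + ψ g) - (φ h + ψ h)
          = (φ (g * h) - φ g - φ h) + (ψ (g * h) - ψ g - ψ h) := by ring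
      rw [e]
      linarith [hD g h, hE g h]
    · simp only [Pi.add_apply, hφ g n, hψ g n]; ring
  zero_mem' := ⟨⟨0, fun g h => by simp⟩, fun g n => by simp⟩
  smul_mem' := by
    rintro c φ ⟨⟨D, hD⟩, hφ⟩
    refine ⟨⟨|c| * D, fun g h => ?_⟩, fun g n => ?_⟩
    · simp only [Pi.smul_apply, smul_eq_mul]
      have e : c * φ (g * h) - c * φ g - c * φ h = c * (φ (g * h) - φ g - φ h) := by ring
      rw [e, abs_mul]
      exact mul_le_mul_of_nonneg_left (hD g h) (abs_nonneg _)
    · simp only [Pi.smul_apply, smul_eq_mul, hφ g n]; ring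

/-- The real vector space `Hom(G, ℝ)` of homomorphisms from `G` to the additive group of `ℝ`. -/
def homMaps (G : Type*) [Group G] : Submodule ℝ (G → ℝ) where
  carrier := {φ | ∀ g h, φ (g * h) = φ g + φ h}
  add_mem' := by
    intro φ ψ hφ hψ g h
    have h1 := hφ g h
    have h2 := hψ g h
    simp only [Pi.add_apply, h1, h2]; ring
  zero_mem' := by intro g h; simp
  smul_mem' := by
    intro c φ hφ g h
    have h1 := hφ g h
    simp only [Pi.smul_apply, smul_eq_mul, h1]; ring

/-- `Hom(G, ℝ)` as a subspace of `Q(G)`. -/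
def homs (G : Type*) [Group G] : Submodule ℝ (homQM G) := (homMaps G).comap (homQM G).subtype

/-- `Q̃(G) = Q(G) / Hom(G, ℝ)`. -/
abbrev QTilde (G : Type*) [Group G] : Type _ := homQM G ⧸ homs G

/-- The dimension of `Q̃(G) = Q(G) / Hom(G, ℝ)` over `ℝ`. -/
noncomputable def dimQTilde (G : Type*) [Group G] : Cardinal := Module.rank ℝ (QTilde G)

/-! ### The mapping class group of the plane minus a Cantor set -/

/-- A Cantor set in the plane: a nonempty compact totally disconnected subset without isolated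
points. -/
def IsCantorSet (C : Set ℂ) : Prop :=
  C.Nonempty ∧ IsCompact C ∧ IsTotallyDisconnected C ∧ Preperfect C

/-- The surface `S = ℝ² - C`. -/
abbrev Surf (C : Set ℂ) : Type := {z : ℂ // z ∉ C}

/-- A homeomorphism `f` of `X` is isotopic to the identity if there is a path of homeomorphisms
`F t`, `t ∈ [0,1]`, jointly continuous together with the inverses, from the identity to `f`. -/
def IsotopicToId {X : Type*} [TopologicalSpace X] (f : X ≃ₜ X) : Prop :=
  ∃ F : unitInterval → (X ≃ₜ X), F 0 = 1 ∧ F 1 = f ∧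
    Continuous (fun p : unitInterval × X => F p.1 p.2) ∧
    Continuous (fun p : unitInterval × X => (F p.1)⁻¹ p.2)

/-- `Homeo₀(X)`: the subgroup of homeomorphisms isotopic to the identity. -/
def homeoZero (X : Type*) [TopologicalSpace X] : Subgroup (X ≃ₜ X) where
  carrier := {f | IsotopicToId f}
  one_mem' := ⟨fun _ => 1, rfl, rfl, continuous_snd, continuous_snd⟩
  mul_mem' := by
    rintro f g ⟨F, hF0, hF1, hF, hF'⟩ ⟨G, hG0, hG1, hG, hG'⟩
    refine ⟨fun t => F t * G t, by simp [hF0, hG0], by simp [hF1, hG1], ?_, ?_⟩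
    · exact hF.comp (continuous_fst.prodMk hG)
    · simp only [mul_inv_rev]
      exact hG'.comp (continuous_fst.prodMk hF')
  inv_mem' := by
    rintro f ⟨F, hF0, hF1, hF, hF'⟩
    refine ⟨fun t => (F t)⁻¹, by simp [hF0], by simp [hF1], hF', ?_⟩
    simpa using hF

theorem homeoZero_conj (X : Type*) [TopologicalSpace X] (f : X ≃ₜ X) (hf : f ∈ homeoZero X)
    (g : X ≃ₜ X) : g * f * g⁻¹ ∈ homeoZero X := by
  obtain ⟨F, hF0, hF1, hF, hF'⟩ := hf
  refine ⟨fun t => g * F t * g⁻¹, by simp [hF0], by simp [hF1], ?_, ?_⟩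
  · exact g.continuous.comp (hF.comp (continuous_fst.prodMk (g⁻¹.continuous.comp continuous_snd)))
  · simp only [mul_inv_rev, inv_inv, ← mul_assoc]
    exact g.continuous.comp (hF'.comp (continuous_fst.prodMk (g⁻¹.continuous.comp continuous_snd)))

instance homeoZero_normal (X : Type*) [TopologicalSpace X] : (homeoZero X).Normal :=
  ⟨homeoZero_conj X⟩

/-- The extended mapping class group `Homeo(S)/Homeo₀(S)` of `S = ℝ² - C`; the mapping class group
`Map(S)` is its subgroup of classes of orientation preserving homeomorphisms. -/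
def ExtMap (C : Set ℂ) : Type := (Surf C ≃ₜ Surf C) ⧸ homeoZero (Surf C)

noncomputable instance (C : Set ℂ) : Group (ExtMap C) := QuotientGroup.Quotient.group (homeoZero (Surf C))

/-- The projection `Homeo(S) → Homeo(S)/Homeo₀(S)`. -/
noncomputable def toExtMap {C : Set ℂ} : (Surf C ≃ₜ Surf C) →* ExtMap C := QuotientGroup.mk' (homeoZero (Surf C))

/-- A homeomorphism `f` of `S = ℝ² - C` is orientation preserving if its local degree at every
point `z` of `S` is `1`: for some `ε > 0` such that the closed disc of radius `ε` around `z` lies in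
`S`, the loop `u ↦ f (z + ε u) - f z` (`|u| = 1`) in `ℂ - {0}` is homotopic in `ℂ - {0}` to the loop
`u ↦ u`. -/
def OrientationPreserving {C : Set ℂ} (f : Surf C ≃ₜ Surf C) : Prop :=
  ∀ z : Surf C, ∃ ε : ℝ, 0 < ε ∧ Metric.closedBall (z : ℂ) ε ⊆ Cᶜ ∧
    ∃ H : unitInterval × Metric.sphere (0 : ℂ) 1 → ℂ, Continuous H ∧ (∀ p, H p ≠ 0) ∧
      (∀ u, H (0, u) = u) ∧
      ∀ (u : Metric.sphere (0 : ℂ) 1) (w : Surf C), (w : ℂ) = z + ε * u → H (1, u) = f w - f z

/-- The mapping class group `Map(S)`, `S = ℝ² - C`, as a subset of the extended mapping class group: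
the classes of the orientation preserving homeomorphisms. -/
def MapClasses (C : Set ℂ) : Set (ExtMap C) :=
  {h | ∃ f : Surf C ≃ₜ Surf C, OrientationPreserving f ∧ toExtMap f = h}

end Pool.Agent.Helper81.MCG
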