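import Pool.Agent.Helper81.MCG.Homog

set_option autoImplicit false

namespace Pool.Agent.Helper81.MCG

/-! ### The group of automorphisms of (ℚ, <) commuting with the translation by one -/

/-- Automorphisms of `(ℚ, <)` commuting with `x ↦ x + 1`. -/
def G1 : Subgroup AQ where
  carrier := {g | ∀ x, g (x + 1) = g x + 1}
  mul_mem' := by
    intro a b ha hb x
    have h1 : b (x + 1) = b x + 1 := hb x
    have h2 : a (b x + 1) = a (b x) + 1 := ha _
    rw [AQ.mul_apply, AQ.mul_apply, h1, h2]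
  one_mem' := fun x => rfl
  inv_mem' := by
    intro a ha x
    have h : a (a⁻¹ x + 1) = x + 1 := by
      have h1 : a (a⁻¹ x + 1) = a (a⁻¹ x) + 1 := ha _
      rw [h1, ← AQ.mul_apply]; simp
    have h2 : a⁻¹ (a (a⁻¹ x + 1)) = a⁻¹ x + 1 := by rw [← AQ.mul_apply]; simp
    rw [← h, h2]

lemma G1.add_one (g : G1) (x : ℚ) : g.1 (x + 1) = g.1 x + 1 := g.2 x

lemma G1.add_nat (g : G1) (x : ℚ) (n : ℕ) : g.1 (x + n) = g.1 x + n := by
  induction n with
  | zero => simp
  | succ n ih =>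
    push_cast
    rw [← add_assoc, G1.add_one, ih]; ring

lemma G1.add_int (g : G1) (x : ℚ) (n : ℤ) : g.1 (x + n) = g.1 x + n := by
  rcases n with k | k
  · simpa using G1.add_nat g x k
  · have h := G1.add_nat g (x + (Int.negSucc k : ℤ)) (k + 1)
    have e : x + ((Int.negSucc k : ℤ) : ℚ) + ((k + 1 : ℕ) : ℚ) = x := by
      rw [Int.negSucc_eq]; push_cast; ring
    rw [e] at h
    rw [h, Int.negSucc_eq]
    push_cast
    ring

/-- translations -/
def tr (c : ℚ) : G1 := ⟨OrderIso.addRight c, fun x => by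
  change x + 1 + c = x + c + 1
  ring⟩

@[simp] lemma tr_apply (c x : ℚ) : (tr c).1 x = x + c := rfl

lemma G1.ext {g h : G1} (H : ∀ x, g.1 x = h.1 x) : g = h := by
  apply Subtype.ext
  ext x
  exact H x

lemma G1.mul_apply (g h : G1) (x : ℚ) : (g * h).1 x = g.1 (h.1 x) := rfl

lemma tr_mul (a b : ℚ) : tr a * tr b = tr (a + b) := by
  apply G1.ext; intro x
  rw [G1.mul_apply]; simp; ring

lemma tr_pow (a : ℚ) (n : ℕ) : tr a ^ n = tr (n * a) := by
  induction n with
  | zero => apply G1.ext; intro x; simp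
  | succ n ih => rw [pow_succ, ih, tr_mul]; congr 1; push_cast; ring

lemma tr_inv (a : ℚ) : (tr a)⁻¹ = tr (-a) := by
  rw [inv_eq_iff_mul_eq_one, tr_mul]
  apply G1.ext; intro x; simp

lemma tr_zpow (a : ℚ) (n : ℤ) : tr a ^ n = tr (n * a) := by
  rcases n with k | k
  · simpa using tr_pow a k
  · rw [zpow_negSucc, tr_pow, tr_inv]
    congr 1
    rw [Int.negSucc_eq]; push_cast; ring

/-- An order isomorphism between ℚ and the rational points of (0,1). -/
noncomputable def beta : ℚ ≃o Set.Ioo (0 : ℚ) 1 :=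
  haveI : Nonempty (Set.Ioo (0 : ℚ) 1) := ⟨⟨1 / 2, by norm_num, by norm_num⟩⟩
  (Order.iso_of_countable_dense ℚ (Set.Ioo (0 : ℚ) 1)).some

open Classical in
/-- The action of `f ∈ Aut(ℚ)` on [0,1), transported to (0,1). -/
noncomputable def unitMap (f : AQ) (t : ℚ) : ℚ :=
  if h : 0 < t ∧ t < 1 then (beta (f (beta.symm ⟨t, h⟩)) : ℚ) else t

lemma unitMap_of_mem (f : AQ) (t : ℚ) (h : 0 < t ∧ t < 1) :
    unitMap f t = (beta (f (beta.symm ⟨t, h⟩)) : ℚ) := by
  simp only [unitMap, dif_pos h]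

lemma unitMap_zero (f : AQ) : unitMap f 0 = 0 := by simp [unitMap]

lemma unitMap_mem (f : AQ) (t : ℚ) (h : 0 < t ∧ t < 1) : 0 < unitMap f t ∧ unitMap f t < 1 := by
  rw [unitMap_of_mem f t h]
  exact (beta (f (beta.symm ⟨t, h⟩))).2

lemma unitMap_mem' (f : AQ) (t : ℚ) (h : 0 ≤ t ∧ t < 1) : 0 ≤ unitMap f t ∧ unitMap f t < 1 := by
  rcases eq_or_lt_of_le h.1 with h0 | h0
  · rw [← h0, unitMap_zero]; norm_num
  · have := unitMap_mem f t ⟨h0, h.2⟩
    exact ⟨this.1.le, this.2⟩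

lemma unitMap_mul (f g : AQ) (t : ℚ) (h : 0 ≤ t ∧ t < 1) :
    unitMap (f * g) t = unitMap f (unitMap g t) := by
  rcases eq_or_lt_of_le h.1 with h0 | h0
  · rw [← h0, unitMap_zero, unitMap_zero, unitMap_zero]
  · have h1 : 0 < t ∧ t < 1 := ⟨h0, h.2⟩
    rw [unitMap_of_mem (f * g) t h1, unitMap_of_mem g t h1]
    rw [unitMap_of_mem f _ (beta (g (beta.symm ⟨t, h1⟩))).2]
    simp [AQ.mul_apply]

lemma unitMap_one (t : ℚ) : unitMap 1 t = t := by
  unfold unitMap
  split_ifs with h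
  · change ((beta (beta.symm ⟨t, h⟩) : Set.Ioo (0 : ℚ) 1) : ℚ) = t
    simp
  · rfl

lemma unitMap_strictMono (f : AQ) {s t : ℚ} (hs : 0 ≤ s) (ht : t < 1) (hst : s < t) :
    unitMap f s < unitMap f t := by
  have h2 : 0 < t ∧ t < 1 := ⟨lt_of_le_of_lt hs hst, ht⟩
  rcases eq_or_lt_of_le hs with h0 | h0
  · rw [← h0, unitMap_zero]
    exact (unitMap_mem f t h2).1
  · have h1 : 0 < s ∧ s < 1 := ⟨h0, lt_trans hst ht⟩
    rw [unitMap_of_mem f s h1, unitMap_of_mem f t h2]
    have : beta (f (beta.symm ⟨s, h1⟩)) < beta (f (beta.symm ⟨t, h2⟩)) := by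
      rw [beta.lt_iff_lt, f.lt_iff_lt, beta.symm.lt_iff_lt]
      exact hst
    exact this

noncomputable def perMap (f : AQ) (x : ℚ) : ℚ := ⌊x⌋ + unitMap f (Int.fract x)

lemma fract_mem (x : ℚ) : 0 ≤ Int.fract x ∧ Int.fract x < 1 := ⟨Int.fract_nonneg x, Int.fract_lt_one x⟩

lemma floor_perMap (f : AQ) (x : ℚ) : ⌊perMap f x⌋ = ⌊x⌋ := by
  have h := unitMap_mem' f _ (fract_mem x)
  rw [perMap, Int.floor_intCast_add, Int.floor_eq_zero_iff.mpr h, add_zero]

lemma fract_perMap (f : AQ) (x : ℚ) : Int.fract (perMap f x) = unitMap f (Int.fract x) := by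
  have h := unitMap_mem' f _ (fract_mem x)
  rw [perMap, Int.fract_intCast_add, Int.fract_eq_self.mpr h]

lemma perMap_mul (f g : AQ) (x : ℚ) : perMap (f * g) x = perMap f (perMap g x) := by
  have e : perMap f (perMap g x) = ⌊perMap g x⌋ + unitMap f (Int.fract (perMap g x)) := rfl
  rw [e, floor_perMap, fract_perMap, ← unitMap_mul f g _ (fract_mem x)]
  rfl

lemma perMap_one (x : ℚ) : perMap 1 x = x := by
  rw [perMap, unitMap_one, Int.floor_add_fract]

lemma perMap_strictMono (f : AQ) : StrictMono (perMap f) := by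
  intro x y hxy
  rcases lt_or_eq_of_le (Int.floor_mono hxy.le) with hlt | heq
  · have h1 := unitMap_mem' f _ (fract_mem x)
    have h2 := unitMap_mem' f _ (fract_mem y)
    have h3 : (⌊x⌋ : ℚ) + 1 ≤ ⌊y⌋ := by exact_mod_cast hlt
    simp only [perMap]
    linarith [h1.2, h2.1]
  · have h1 := Int.floor_add_fract x
    have h2 := Int.floor_add_fract y
    have h3 : ((⌊x⌋ : ℤ) : ℚ) = ⌊y⌋ := by rw [heq]
    have h4 : Int.fract x < Int.fract y := by linarith
    have := unitMap_strictMono f (fract_mem x).1 (fract_mem y).2 h4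
    simp only [perMap]
    rw [heq]; linarith

/-- The isomorphism of `Aut(ℚ)` with the stabiliser of `0` in `G1`. -/
noncomputable def E0 : AQ →* G1 where
  toFun f := ⟨StrictMono.orderIsoOfRightInverse (perMap f) (perMap_strictMono f) (perMap f⁻¹)
    (fun x => by rw [← perMap_mul, mul_inv_cancel, perMap_one]), fun x => by
      change perMap f (x + 1) = perMap f x + 1
      simp only [perMap, Int.floor_add_one, Int.fract_add_one]
      push_cast; ring⟩
  map_one' := by
    apply G1.ext; intro x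
    exact perMap_one x
  map_mul' f g := by
    apply G1.ext; intro x
    exact perMap_mul f g x

lemma E0_apply (f : AQ) (x : ℚ) : (E0 f).1 x = perMap f x := rfl

lemma E0_surj (k : G1) (hk : k.1 0 = 0) : ∃ f : AQ, E0 f = k := by
  have hk1 : k.1 1 = 1 := by
    have := G1.add_one k 0
    rw [hk] at this; simpa using this
  have hkinv : ∀ x, k.1.symm (k.1 x) = x := fun x => by simp
  let r : Set.Ioo (0 : ℚ) 1 ≃o Set.Ioo (0 : ℚ) 1 :=
    { toFun := fun t => ⟨k.1 t.1, by
        constructor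
        · have := k.1.strictMono t.2.1
          rwa [hk] at this
        · have := k.1.strictMono t.2.2
          rwa [hk1] at this⟩
      invFun := fun t => ⟨k.1.symm t.1, by
        constructor
        · rw [← k.1.lt_iff_lt]; simp only [OrderIso.apply_symm_apply]; rw [hk]; exact t.2.1
        · rw [← k.1.lt_iff_lt]; simp only [OrderIso.apply_symm_apply]; rw [hk1]; exact t.2.2⟩
      left_inv := fun t => by simp
      right_inv := fun t => by simp
      map_rel_iff' := by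
        intro a b
        change k.1 a.1 ≤ k.1 b.1 ↔ a ≤ b
        rw [k.1.le_iff_le]; rfl }
  refine ⟨(beta.trans r).trans beta.symm, ?_⟩
  apply G1.ext
  intro x
  rw [E0_apply, perMap]
  have hx : k.1 x = ⌊x⌋ + k.1 (Int.fract x) := by
    have h1 := G1.add_int k (Int.fract x) ⌊x⌋
    rw [Int.fract_add_floor] at h1
    rw [h1]; ring
  rw [hx]
  congr 1
  rcases eq_or_lt_of_le (fract_mem x).1 with h0 | h0
  · rw [← h0, unitMap_zero, hk]
  · rw [unitMap_of_mem _ _ ⟨h0, (fract_mem x).2⟩]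
    simp only [OrderIso.trans_apply, OrderIso.apply_symm_apply]
    rfl

/-- A homogeneous quasimorphism on `G1` vanishing at the central translation is zero. -/
theorem qm_G1_zero (ψ : homQM G1) (hz : ψ.1 (tr 1) = 0) (g : G1) : ψ.1 g = 0 := by
  obtain ⟨D, hD0, hD⟩ := qm_defect ψ
  have h1 : ∀ k : G1, k.1 0 = 0 → ψ.1 k = 0 := by
    intro k hk
    obtain ⟨f, rfl⟩ := E0_surj k hk
    exact qm_AQ (qmComap E0 ψ) f
  have h2 : ∀ c : ℚ, ψ.1 (tr c) = 0 := by
    intro c
    have e : tr c ^ c.den = tr 1 ^ c.num := by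
      rw [tr_pow, tr_zpow]
      congr 1
      rw [mul_comm, Rat.mul_den_eq_num]; ring
    have h3 := qm_pow ψ (tr c) c.den
    rw [e, qm_zpow, hz, mul_zero] at h3
    have h4 : (c.den : ℝ) ≠ 0 := by exact_mod_cast c.den_nz
    rcases mul_eq_zero.mp h3.symm with h | h
    · exact absurd h h4
    · exact h
  have h5 : ∀ g : G1, |ψ.1 g| ≤ D := by
    intro g
    have h6 := hD (tr (g.1 0)) ((tr (g.1 0))⁻¹ * g)
    have h7 : ψ.1 ((tr (g.1 0))⁻¹ * g) = 0 := by
      apply h1
      rw [tr_inv, G1.mul_apply]; simp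
    rw [mul_inv_cancel_left, h2, h7] at h6
    simpa using h6
  exact qm_bounded ψ g D fun n => h5 _

/-- A homogeneous quasimorphism on `G1` with value one on the central translation: the
translation number. -/
lemma exists_translation_number : ∃ τ : homQM G1, τ.1 (tr 1) = 1 := by
  have hq : ∀ g h : G1, |(((g * h).1 0 : ℚ) : ℝ) - ((g.1 0 : ℚ) : ℝ) - ((h.1 0 : ℚ) : ℝ)| ≤ 1 := by
    intro g h
    have hQ : |(g * h).1 0 - g.1 0 - h.1 0| ≤ 1 := by
      rw [G1.mul_apply]
      set x : ℚ := h.1 0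
      have h1 : g.1 x = ⌊x⌋ + g.1 (Int.fract x) := by
        have h1 := G1.add_int g (Int.fract x) ⌊x⌋
        rw [Int.fract_add_floor] at h1
        rw [h1]; ring
      have h2 : g.1 0 ≤ g.1 (Int.fract x) := g.1.monotone (fract_mem x).1
      have h3 : g.1 (Int.fract x) < g.1 0 + 1 := by
        have := G1.add_one g 0
        rw [← this, zero_add]
        exact g.1.strictMono (fract_mem x).2
      have h4 := Int.floor_add_fract x
      have h5 := fract_mem x
      rw [abs_le, h1]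
      constructor <;> linarith [h5.1, h5.2]
    have : (((g * h).1 0 : ℚ) : ℝ) - ((g.1 0 : ℚ) : ℝ) - ((h.1 0 : ℚ) : ℝ)
        = (((g * h).1 0 - g.1 0 - h.1 0 : ℚ) : ℝ) := by push_cast; ring
    rw [this, ← Rat.cast_abs]
    exact_mod_cast hQ
  obtain ⟨τ, -, hτ⟩ := homog_exists (q := fun g : G1 => ((g.1 0 : ℚ) : ℝ)) zero_le_one hq
  refine ⟨τ, tendsto_nhds_unique (hτ (tr 1)) ?_⟩
  refine (tendsto_const_nhds (x := (1 : ℝ))).congr' ?_
  filter_upwards [Filter.eventually_gt_atTop 0] with n hn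
  rw [tr_pow]
  simp only [tr_apply]
  push_cast
  have : (n : ℝ) ≠ 0 := by positivity
  field_simp
  ring

/-- Homomorphisms from `G1` to the reals vanish. -/
theorem hom_G1_zero (ψ : homQM G1) (hψ' : ψ ∈ homs G1) (g : G1) : ψ.1 g = 0 := by
  have hψ : ∀ g h : G1, ψ.1 (g * h) = ψ.1 g + ψ.1 h := hψ'
  have h1 : ∀ k : G1, k.1 0 = 0 → ψ.1 k = 0 := by
    intro k hk
    obtain ⟨f, rfl⟩ := E0_surj k hk
    exact qm_AQ (qmComap E0 ψ) f
  have h2 : ∀ c : ℚ, ψ.1 (tr c) = c * ψ.1 (tr 1) := by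
    intro c
    have e : tr c ^ c.den = tr 1 ^ c.num := by
      rw [tr_pow, tr_zpow]
      congr 1
      rw [mul_comm, Rat.mul_den_eq_num]; ring
    have h3 := qm_pow ψ (tr c) c.den
    rw [e, qm_zpow] at h3
    have h4 : (c.den : ℝ) ≠ 0 := by exact_mod_cast c.den_nz
    have h5 : (c : ℝ) = c.num / c.den := by
      rw [Rat.cast_def]
    rw [h5]
    field_simp
    linarith
  have h3 : ∀ g : G1, ψ.1 g = ((g.1 0 : ℚ) : ℝ) * ψ.1 (tr 1) := by
    intro g
    have e : g = tr (g.1 0) * ((tr (g.1 0))⁻¹ * g) := by rw [mul_inv_cancel_left]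
    have h4 : ψ.1 (tr (g.1 0) * ((tr (g.1 0))⁻¹ * g)) = _ := hψ (tr (g.1 0)) ((tr (g.1 0))⁻¹ * g)
    rw [← e] at h4
    have h7 : ψ.1 ((tr (g.1 0))⁻¹ * g) = 0 := by
      apply h1
      rw [tr_inv, G1.mul_apply]; simp
    rw [h4, h2, h7]
    ring
  have h4 : ψ.1 (tr 1) = 0 := by
    -- an element fixing 0 and moving `beta 0`
    set c : ℚ := (beta 0 : ℚ) with hc
    set f : AQ := OrderIso.addRight (1 : ℚ) with hf
    have hc1 : 0 < c ∧ c < 1 := (beta 0).2
    have h5 : (E0 f * tr c).1 0 = (beta 1 : ℚ) := by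
      rw [G1.mul_apply, tr_apply, E0_apply, perMap, zero_add]
      have e1 : ⌊c⌋ = 0 := Int.floor_eq_zero_iff.mpr ⟨hc1.1.le, hc1.2⟩
      have e2 : Int.fract c = c := Int.fract_eq_self.mpr ⟨hc1.1.le, hc1.2⟩
      rw [e1, e2, unitMap_of_mem f c hc1]
      have e3 : beta.symm ⟨c, hc1⟩ = 0 := by
        rw [OrderIso.symm_apply_eq]
      rw [e3]
      simp [hf]
    have h6 := hψ (E0 f) (tr c)
    have h7 : (E0 f).1 0 = 0 := by
      rw [E0_apply, perMap]; simp [unitMap_zero]
    rw [h3 (E0 f * tr c), h3 (E0 f), h3 (tr c), h5, h7, tr_apply, zero_add] at h6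
    have h8 : ((beta 1 : ℚ) : ℝ) ≠ ((c : ℚ) : ℝ) := by
      have : (beta 0 : ℚ) < (beta 1 : ℚ) := by
        have : beta 0 < beta 1 := beta.strictMono (by norm_num)
        exact this
      have h9 : ((beta 0 : ℚ) : ℝ) < ((beta 1 : ℚ) : ℝ) := by exact_mod_cast this
      exact ne_of_gt h9
    by_contra hne
    apply h8
    have h10 : (((beta 1 : ℚ) : ℝ) - ((c : ℚ) : ℝ)) * ψ.1 (tr 1) = 0 := by
      push_cast at h6
      linarith
    rcases mul_eq_zero.mp h10 with h | h
    · linarith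
    · exact absurd h hne
  rw [h3 g, h4, mul_zero]

end Pool.Agent.Helper81.MCG
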