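import Pool.Agent.Helper81.MCG.GOne

set_option autoImplicit false

namespace Pool.Agent.Helper81.MCG

/-! ### `G1` and `Aut(ℚ)` are not amenable -/

lemma mono_of_mean {X : Type*} {μ : Set X → ℝ} (h0 : ∀ A, 0 ≤ μ A)
    (h2 : ∀ A B, Disjoint A B → μ (A ∪ B) = μ A + μ B) {A B : Set X} (h : A ⊆ B) : μ A ≤ μ B := by
  have : B = A ∪ (B \ A) := by rw [Set.union_diff_cancel h]
  rw [this, h2 _ _ Set.disjoint_sdiff_right]
  linarith [h0 (B \ A)]

/-- points with fractional part in `[a, b)` -/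
def P (a b : ℚ) : Set ℚ := {x | a ≤ Int.fract x ∧ Int.fract x < b}

lemma exists_k : ∃ k : G1, k.1 0 = 0 ∧ k.1 (1 / 4) = 3 / 4 := by
  have h1 : (0 : ℚ) < 1 / 4 ∧ (1 / 4 : ℚ) < 1 := by norm_num
  have h3 : (0 : ℚ) < 3 / 4 ∧ (3 / 4 : ℚ) < 1 := by norm_num
  refine ⟨E0 (OrderIso.addRight (beta.symm ⟨3 / 4, h3⟩ - beta.symm ⟨1 / 4, h1⟩)), ?_, ?_⟩
  · rw [E0_apply, perMap]; simp [unitMap_zero]
  · have e1 : ⌊(1 / 4 : ℚ)⌋ = 0 := Int.floor_eq_zero_iff.mpr ⟨h1.1.le, h1.2⟩
    have e2 : Int.fract (1 / 4 : ℚ) = 1 / 4 := Int.fract_eq_self.mpr ⟨h1.1.le, h1.2⟩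
    rw [E0_apply, perMap, e1, e2, unitMap_of_mem _ _ h1]
    have e3 : (OrderIso.addRight (beta.symm ⟨3 / 4, h3⟩ - beta.symm ⟨1 / 4, h1⟩)) (beta.symm ⟨1 / 4, h1⟩)
        = beta.symm ⟨3 / 4, h3⟩ := by
      simp
    rw [e3]
    simp

lemma map_P (k : G1) (h0 : k.1 0 = 0) (h1 : k.1 (1 / 4) = 3 / 4) (x : ℚ) (hx : x ∈ P (1 / 4) 1) :
    k.1 x - 1 / 2 ∈ P (1 / 4) (1 / 2) := by
  have hk1 : k.1 1 = 1 := by
    have := G1.add_one k 0
    rw [h0] at this; simpa using this
  have hx' : k.1 x = ⌊x⌋ + k.1 (Int.fract x) := by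
    have h1 := G1.add_int k (Int.fract x) ⌊x⌋
    rw [Int.fract_add_floor] at h1
    rw [h1]; ring
  have h2 : 3 / 4 ≤ k.1 (Int.fract x) := by rw [← h1]; exact k.1.monotone hx.1
  have h3 : k.1 (Int.fract x) < 1 := by
    have := k.1.strictMono hx.2
    rwa [hk1] at this
  have h4 : Int.fract (k.1 x - 1 / 2) = k.1 (Int.fract x) - 1 / 2 := by
    rw [hx']
    have : (⌊x⌋ : ℚ) + k.1 (Int.fract x) - 1 / 2 = ⌊x⌋ + (k.1 (Int.fract x) - 1 / 2) := by ring
    rw [this, Int.fract_intCast_add]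
    apply Int.fract_eq_self.mpr
    constructor <;> linarith
  constructor <;> rw [h4] <;> linarith

theorem not_amenable_G1 : ¬ Amenable G1 := by
  rintro ⟨m, h0, h1, h2, h3⟩
  set μ : Set ℚ → ℝ := fun A => m {g : G1 | g.1 0 ∈ A} with hμ
  have μ0 : ∀ A, 0 ≤ μ A := fun A => h0 _
  have μ1 : μ Set.univ = 1 := by simp only [hμ, Set.mem_univ]; exact h1
  have μ2 : ∀ A B, Disjoint A B → μ (A ∪ B) = μ A + μ B := by
    intro A B hAB
    simp only [hμ]
    rw [← h2]
    · rfl
    · rw [Set.disjoint_left] at hAB ⊢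
      intro g hg
      exact hAB hg
  have μ3 : ∀ (k : G1) (A : Set ℚ), μ (k.1 '' A) = μ A := by
    intro k A
    simp only [hμ]
    rw [← h3 k {g : G1 | g.1 0 ∈ A}]
    congr 1
    ext g
    simp only [Set.mem_ofPred_eq, Set.mem_image]
    constructor
    · rintro ⟨y, hy, hyg⟩
      refine ⟨k⁻¹ * g, ?_, by group⟩
      rw [G1.mul_apply, ← hyg, ← G1.mul_apply]
      simpa using hy
    · rintro ⟨g', hg', rfl⟩
      exact ⟨g'.1 0, hg', rfl⟩
  obtain ⟨k, hk0, hk1⟩ := exists_k
  have compl : ∀ A : Set ℚ, μ A + μ Aᶜ = 1 := by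
    intro A
    rw [← μ2 _ _ disjoint_compl_right, Set.union_compl_self, μ1]
  -- first map
  have s1 : μ (P (1 / 4) 1) ≤ μ (P (1 / 4) (1 / 2)) := by
    rw [← μ3 (tr (-1 / 2) * k) (P (1 / 4) 1)]
    apply mono_of_mean μ0 μ2
    rintro _ ⟨x, hx, rfl⟩
    have := map_P k hk0 hk1 x hx
    change k.1 x + (-1 / 2) ∈ _
    have e : k.1 x + (-1 / 2) = k.1 x - 1 / 2 := by ring
    rw [e]; exact this
  -- complement of the first interval
  have c1 : (P 0 (1 / 4))ᶜ = P (1 / 4) 1 := by
    ext x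
    simp only [P, Set.mem_compl_iff, Set.mem_ofPred_eq, not_and, not_lt]
    constructor
    · intro h; exact ⟨h (Int.fract_nonneg x), Int.fract_lt_one x⟩
    · rintro ⟨h, -⟩ _; exact h
  have s1' : 1 ≤ μ (P 0 (1 / 4)) + μ (P (1 / 4) (1 / 2)) := by
    have := compl (P 0 (1 / 4))
    rw [c1] at this
    linarith
  -- the translate by one half of the sets
  have trP : ∀ a b : ℚ, 0 ≤ a → b ≤ 1 / 2 → (tr (1 / 2)).1 '' (P a b) = P (a + 1 / 2) (b + 1 / 2) := by
    intro a b ha hb
    ext y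
    simp only [Set.mem_image, P, Set.mem_ofPred_eq, tr_apply]
    constructor
    · rintro ⟨x, ⟨hx1, hx2⟩, rfl⟩
      have h4 : Int.fract (x + 1 / 2) = Int.fract x + 1 / 2 := by
        have h5 : x + 1 / 2 = ⌊x⌋ + (Int.fract x + 1 / 2) := by
          have := Int.floor_add_fract x; linarith
        rw [h5, Int.fract_intCast_add]
        apply Int.fract_eq_self.mpr
        constructor <;> linarith
      rw [h4]; constructor <;> linarith
    · rintro ⟨hy1, hy2⟩
      refine ⟨y - 1 / 2, ?_, by ring⟩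
      have h4 : Int.fract (y - 1 / 2) = Int.fract y - 1 / 2 := by
        have h5 : y - 1 / 2 = ⌊y⌋ + (Int.fract y - 1 / 2) := by
          have := Int.floor_add_fract y; linarith
        rw [h5, Int.fract_intCast_add]
        apply Int.fract_eq_self.mpr
        constructor <;> linarith [Int.fract_lt_one y]
      rw [h4]; constructor <;> linarith
  have t1 : μ (P 0 (1 / 4)) = μ (P (1 / 2) (3 / 4)) := by
    rw [← μ3 (tr (1 / 2)) (P 0 (1 / 4)), trP 0 (1 / 4) le_rfl (by norm_num)]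
    norm_num
  have t2 : μ (P (1 / 4) (1 / 2)) = μ (P (3 / 4) 1) := by
    rw [← μ3 (tr (1 / 2)) (P (1 / 4) (1 / 2)), trP (1 / 4) (1 / 2) (by norm_num) le_rfl]
    norm_num
  have dj : ∀ a b c : ℚ, Disjoint (P a b) (P b c) := by
    intro a b c
    rw [Set.disjoint_left]
    rintro x ⟨_, h1⟩ ⟨h2, _⟩
    linarith
  have un : ∀ a b c : ℚ, a ≤ b → b ≤ c → P a b ∪ P b c = P a c := by
    intro a b c hab hbc
    ext x
    simp only [P, Set.mem_union, Set.mem_ofPred_eq]
    constructor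
    · rintro (⟨h1, h2⟩ | ⟨h1, h2⟩) <;> constructor <;> linarith
    · rintro ⟨h1, h2⟩
      rcases lt_or_ge (Int.fract x) b with h | h
      · left; exact ⟨h1, h⟩
      · right; exact ⟨h, h2⟩
  have tot : μ (P 0 (1 / 4)) + μ (P (1 / 4) (1 / 2)) + μ (P (1 / 2) (3 / 4)) + μ (P (3 / 4) 1) = 1 := by
    rw [← μ2 _ _ (dj _ _ _), un _ _ _ (by norm_num) (by norm_num), ← μ2 _ _ (dj _ _ _),
      un _ _ _ (by norm_num) (by norm_num), ← μ2 _ _ (dj _ _ _), un _ _ _ (by norm_num) (by norm_num)]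
    rw [← μ1]
    congr 1
    ext x
    simp only [P, Set.mem_ofPred_eq, Set.mem_univ, iff_true]
    exact fract_mem x
  linarith

theorem not_amenable_AQ : ¬ Amenable AQ := fun h =>
  not_amenable_G1 (amenable_of_injective G1.subtype G1.subtype_injective h)

/-! ### The groups `Γ_n` -/

/-- `Γ_n = Aut(ℚ) × G1ⁿ`. -/
abbrev Gam (n : ℕ) : Type := AQ × (Fin n → G1)

theorem not_amenable_Gam (n : ℕ) : ¬ Amenable (Gam n) := fun h =>
  not_amenable_AQ (amenable_of_surjective (MonoidHom.fst AQ (Fin n → G1)) Prod.fst_surjective h)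

noncomputable def incl (n : ℕ) (i : Fin n) : G1 →* Gam n :=
  (MonoidHom.inr AQ (Fin n → G1)).comp (MonoidHom.mulSingle (fun _ => G1) i)

/-- evaluation on the central translations -/
noncomputable def ev (n : ℕ) : homQM (Gam n) →ₗ[ℝ] (Fin n → ℝ) where
  toFun φ := fun i => φ.1 (incl n i (tr 1))
  map_add' φ ψ := rfl
  map_smul' c φ := rfl

lemma ev_injective (n : ℕ) : Function.Injective (ev n) := by
  rw [← LinearMap.ker_eq_bot, LinearMap.ker_eq_bot']
  intro φ hφ
  have h1 : ∀ i (g : G1), φ.1 (incl n i g) = 0 := by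
    intro i g
    exact qm_G1_zero (qmComap (incl n i) φ) (congrFun hφ i) g
  have h2 : ∀ (g : Fin n → G1) (s : Finset (Fin n)), φ.1 (1, fun i => if i ∈ s then g i else 1) = 0 := by
    intro g s
    induction s using Finset.induction with
    | empty => exact qm_one φ
    | insert a s ha ih =>
      have e : ((1, fun i => if i ∈ insert a s then g i else 1) : Gam n)
          = incl n a (g a) * (1, fun i => if i ∈ s then g i else 1) := by
        ext1
        · simp [incl]
        · funext i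
          by_cases hi : i = a
          · subst hi; simp [incl, ha]
          · simp [incl, hi]
      have hc : Commute (incl n a (g a)) ((1, fun i => if i ∈ s then g i else 1) : Gam n) := by
        ext1
        · simp [incl]
        · funext i
          by_cases hi : i = a
          · subst hi; simp [incl, ha]
          · simp [incl, hi]
      rw [e, qm_comm φ hc, h1, ih, add_zero]
  ext1
  funext ⟨f, g⟩
  have e : ((f, g) : Gam n) = (f, 1) * (1, g) := by simp
  have hc : Commute ((f, 1) : Gam n) (1, g) := by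
    ext1 <;> simp
  rw [e, qm_comm φ hc]
  have h3 : φ.1 (f, 1) = 0 := qm_AQ (qmComap (MonoidHom.inl AQ (Fin n → G1)) φ) f
  have h4 : φ.1 (1, g) = 0 := by
    have := h2 g Finset.univ
    simpa using this
  rw [h3, h4]; simp

lemma ev_surjective (n : ℕ) : Function.Surjective (ev n) := by
  obtain ⟨τ, hτ⟩ := exists_translation_number
  intro c
  refine ⟨∑ i, c i • qmComap ((Pi.evalMonoidHom (fun _ : Fin n => G1) i).comp (MonoidHom.snd AQ (Fin n → G1))) τ, ?_⟩
  rw [map_sum]
  funext j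
  rw [Finset.sum_apply]
  simp only [map_smul, Pi.smul_apply, smul_eq_mul]
  rw [Finset.sum_eq_single j]
  · have : (ev n) (qmComap ((Pi.evalMonoidHom (fun _ : Fin n => G1) j).comp (MonoidHom.snd AQ (Fin n → G1))) τ) j
        = τ.1 (tr 1) := by
      simp [ev, incl]
    rw [this, hτ, mul_one]
  · intro i _ hij
    have : (ev n) (qmComap ((Pi.evalMonoidHom (fun _ : Fin n => G1) i).comp (MonoidHom.snd AQ (Fin n → G1))) τ) j
        = τ.1 1 := by
      simp [ev, incl, hij]
    rw [this, qm_one, mul_zero]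
  · intro h; exact absurd (Finset.mem_univ j) h

lemma homs_Gam (n : ℕ) : homs (Gam n) = ⊥ := by
  rw [Submodule.eq_bot_iff]
  intro φ hφ
  apply ev_injective n
  rw [map_zero]
  funext i
  have h : qmComap (incl n i) φ ∈ homs G1 := by
    intro g h
    change φ.1 (incl n i (g * h)) = φ.1 (incl n i g) + φ.1 (incl n i h)
    rw [map_mul]
    exact hφ _ _
  exact hom_G1_zero _ h (tr 1)

theorem rank_Gam (n : ℕ) : dimQTilde (Gam n) = n := by
  unfold dimQTilde
  have e1 : QTilde (Gam n) ≃ₗ[ℝ] homQM (Gam n) := Submodule.quotEquivOfEqBot _ (homs_Gam n)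
  have e2 : homQM (Gam n) ≃ₗ[ℝ] (Fin n → ℝ) :=
    LinearEquiv.ofBijective (ev n) ⟨ev_injective n, ev_surjective n⟩
  rw [(e1.trans e2).rank_eq]
  simp

/-! ### Embedding `Γ_n` into `Aut(ℚ)` -/

noncomputable def blockMap (F : ℤ → AQ) (x : ℚ) : ℚ := ⌊x⌋ + unitMap (F ⌊x⌋) (Int.fract x)

lemma floor_blockMap (F : ℤ → AQ) (x : ℚ) : ⌊blockMap F x⌋ = ⌊x⌋ := by
  have h := unitMap_mem' (F ⌊x⌋) _ (fract_mem x)
  rw [blockMap, Int.floor_intCast_add, Int.floor_eq_zero_iff.mpr h, add_zero]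

lemma fract_blockMap (F : ℤ → AQ) (x : ℚ) :
    Int.fract (blockMap F x) = unitMap (F ⌊x⌋) (Int.fract x) := by
  have h := unitMap_mem' (F ⌊x⌋) _ (fract_mem x)
  rw [blockMap, Int.fract_intCast_add, Int.fract_eq_self.mpr h]

lemma blockMap_mul (F G : ℤ → AQ) (x : ℚ) : blockMap (F * G) x = blockMap F (blockMap G x) := by
  have e : blockMap F (blockMap G x) =
    ⌊blockMap G x⌋ + unitMap (F ⌊blockMap G x⌋) (Int.fract (blockMap G x)) := rfl
  rw [e, floor_blockMap, fract_blockMap, ← unitMap_mul _ _ _ (fract_mem x)]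
  rfl

lemma blockMap_one (x : ℚ) : blockMap 1 x = x := by
  rw [blockMap, Pi.one_apply, unitMap_one, Int.floor_add_fract]

lemma blockMap_strictMono (F : ℤ → AQ) : StrictMono (blockMap F) := by
  intro x y hxy
  rcases lt_or_eq_of_le (Int.floor_mono hxy.le) with hlt | heq
  · have h1 := unitMap_mem' (F ⌊x⌋) _ (fract_mem x)
    have h2 := unitMap_mem' (F ⌊y⌋) _ (fract_mem y)
    have h3 : (⌊x⌋ : ℚ) + 1 ≤ ⌊y⌋ := by exact_mod_cast hlt
    simp only [blockMap]
    linarith [h1.2, h2.1]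
  · have h1 := Int.floor_add_fract x
    have h2 := Int.floor_add_fract y
    have h3 : ((⌊x⌋ : ℤ) : ℚ) = ⌊y⌋ := by rw [heq]
    have h4 : Int.fract x < Int.fract y := by linarith
    have := unitMap_strictMono (F ⌊y⌋) (fract_mem x).1 (fract_mem y).2 h4
    simp only [blockMap]
    rw [heq]; linarith

noncomputable def blockHom : (ℤ → AQ) →* AQ where
  toFun F := StrictMono.orderIsoOfRightInverse (blockMap F) (blockMap_strictMono F) (blockMap F⁻¹)
    (fun x => by rw [← blockMap_mul, mul_inv_cancel, blockMap_one])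
  map_one' := by
    ext x
    exact blockMap_one x
  map_mul' F G := by
    ext x
    exact blockMap_mul F G x

lemma blockHom_injective : Function.Injective blockHom := by
  rw [injective_iff_map_eq_one]
  intro F hF
  have h1 : ∀ x, blockMap F x = x := fun x => congrArg (fun g : AQ => g x) hF
  funext k
  ext q
  have h2 := h1 (k + (beta q : ℚ))
  have hb : 0 < (beta q : ℚ) ∧ (beta q : ℚ) < 1 := (beta q).2
  have e1 : ⌊(k : ℚ) + (beta q : ℚ)⌋ = k := by
    rw [Int.floor_intCast_add, Int.floor_eq_zero_iff.mpr ⟨hb.1.le, hb.2⟩, add_zero]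
  have e2 : Int.fract ((k : ℚ) + (beta q : ℚ)) = (beta q : ℚ) := by
    rw [Int.fract_intCast_add, Int.fract_eq_self.mpr ⟨hb.1.le, hb.2⟩]
  rw [blockMap, e1, e2, unitMap_of_mem _ _ hb] at h2
  have h3 : (beta ((F k) (beta.symm (beta q))) : ℚ) = (beta q : ℚ) := by
    have : (⟨(beta q : ℚ), hb⟩ : Set.Ioo (0 : ℚ) 1) = beta q := rfl
    rw [this] at h2
    linarith
  have h4 : beta ((F k) (beta.symm (beta q))) = beta q := Subtype.ext h3
  rw [beta.injective.eq_iff, OrderIso.symm_apply_apply] at h4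
  simpa using h4

/-- the family of automorphisms attached to an element of `Γ_n` -/
noncomputable def fam (n : ℕ) : Gam n →* (ℤ → AQ) where
  toFun x := fun k => if k = -1 then x.1 else if h : 0 ≤ k ∧ k.toNat < n then (x.2 ⟨k.toNat, h.2⟩).1 else 1
  map_one' := by
    funext k
    by_cases h1 : k = -1
    · simp [h1]
    · simp only [h1, if_false]
      split_ifs <;> rfl
  map_mul' x y := by
    funext k
    by_cases h1 : k = -1
    · simp [h1]
    · by_cases h2 : 0 ≤ k ∧ k.toNat < n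
      · simp only [Pi.mul_apply, h1, if_false, dif_pos h2]; rfl
      · simp only [Pi.mul_apply, h1, if_false, dif_neg h2]; rfl

lemma fam_injective (n : ℕ) : Function.Injective (fam n) := by
  intro x y hxy
  ext1
  · have := congrFun hxy (-1)
    simpa [fam] using this
  · funext i
    have := congrFun hxy (i : ℤ)
    have h1 : ¬ ((i : ℕ) : ℤ) = -1 := by omega
    have h2 : 0 ≤ ((i : ℕ) : ℤ) ∧ ((i : ℕ) : ℤ).toNat < n := ⟨by omega, by simp⟩
    simp only [fam, MonoidHom.coe_mk, OneHom.coe_mk, if_neg h1, dif_pos h2] at this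
    exact Subtype.ext this

noncomputable def gamHom (n : ℕ) : Gam n →* AQ := blockHom.comp (fam n)

lemma gamHom_injective (n : ℕ) : Function.Injective (gamHom n) :=
  blockHom_injective.comp (fam_injective n)

end Pool.Agent.Helper81.MCG
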