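import Pool.Agent.Helper81.MCG.AutQ

set_option autoImplicit false

namespace Pool.Agent.Helper81.MCG

/-! ### Homogenisation of quasimorphisms -/

section homog

variable {G : Type*} [Group G]

lemma pow_bound {q : G → ℝ} {D : ℝ} (hq : ∀ g h, |q (g * h) - q g - q h| ≤ D) (g : G) (n : ℕ) :
    |q (g ^ (n + 1)) - (n + 1) * q g| ≤ n * D := by
  induction n with
  | zero => simp
  | succ n ih =>
    have h1 := hq (g ^ (n + 1)) g
    rw [← pow_succ] at h1
    rw [abs_le] at h1 ih ⊢
    push_cast
    constructor <;> linarith [h1.1, h1.2, ih.1, ih.2]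

lemma homog_exists {q : G → ℝ} {D : ℝ} (hD : 0 ≤ D) (hq : ∀ g h, |q (g * h) - q g - q h| ≤ D) :
    ∃ φ : homQM G, (∀ g, |φ.1 g - q g| ≤ D) ∧
      ∀ g, Filter.Tendsto (fun n : ℕ => q (g ^ n) / n) Filter.atTop (nhds (φ.1 g)) := by
  have hconv : ∀ g, ∃ L, Filter.Tendsto (fun n : ℕ => q (g ^ n) / n) Filter.atTop (nhds L) := by
    intro g
    set u : ℕ → ℝ := fun n => q (g ^ n) + D with hu
    have hsub : Subadditive u := by
      intro m n
      simp only [hu]
      have h1 := (abs_le.mp (hq (g ^ m) (g ^ n))).2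
      rw [← pow_add] at h1
      linarith
    have hb : BddBelow (Set.range fun n => u n / n) := by
      refine ⟨min 0 (q g - D), ?_⟩
      rintro _ ⟨n, rfl⟩
      rcases Nat.eq_zero_or_pos n with h | h
      · subst h; simp
      · obtain ⟨k, rfl⟩ : ∃ k, n = k + 1 := ⟨n - 1, by omega⟩
        refine le_trans (min_le_right _ _) ?_
        have h1 := (abs_le.mp (pow_bound hq g k)).1
        simp only [hu]
        rw [le_div_iff₀ (by positivity)]
        push_cast
        nlinarith
    have h1 := hsub.tendsto_lim hb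
    have h2 : Filter.Tendsto (fun n : ℕ => D / n) Filter.atTop (nhds 0) :=
      tendsto_const_div_atTop_nhds_zero_nat D
    refine ⟨hsub.lim - 0, ?_⟩
    have h3 := h1.sub h2
    refine h3.congr fun n => ?_
    simp only [hu]
    ring
  choose φ hφ using hconv
  have hclose : ∀ g, |φ g - q g| ≤ D := by
    intro g
    have h1 : Filter.Tendsto (fun n : ℕ => q (g ^ (n + 1)) / ((n + 1 : ℕ) : ℝ) - q g) Filter.atTop
        (nhds (φ g - q g)) := ((hφ g).comp (Filter.tendsto_add_atTop_nat 1)).sub_const _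
    have h2 := h1.abs
    refine le_of_tendsto h2 (Filter.Eventually.of_forall fun n => ?_)
    have h3 := pow_bound hq g n
    have hn : (0 : ℝ) < ((n + 1 : ℕ) : ℝ) := by positivity
    have e : q (g ^ (n + 1)) / ((n + 1 : ℕ) : ℝ) - q g = (q (g ^ (n + 1)) - (n + 1) * q g) / ((n + 1 : ℕ) : ℝ) := by
      rw [sub_div]
      congr 1
      push_cast
      field_simp
    rw [e, abs_div, abs_of_pos hn, div_le_iff₀ hn]
    push_cast
    nlinarith
  have hone : φ 1 = 0 := by
    have h1 := hφ 1
    simp only [one_pow] at h1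
    exact tendsto_nhds_unique h1 (tendsto_const_div_atTop_nhds_zero_nat _)
  have hinv : ∀ g, φ g⁻¹ = - φ g := by
    intro g
    have h1 := (hφ g⁻¹).add (hφ g)
    have h2 : Filter.Tendsto (fun n : ℕ => q (g⁻¹ ^ n) / n + q (g ^ n) / n) Filter.atTop (nhds 0) := by
      have h3 : Filter.Tendsto (fun n : ℕ => (D + |q 1|) / n) Filter.atTop (nhds 0) :=
        tendsto_const_div_atTop_nhds_zero_nat _
      refine squeeze_zero_norm (fun n => ?_) h3
      rw [← add_div, Real.norm_eq_abs, abs_div, Nat.abs_cast]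
      apply div_le_div_of_nonneg_right _ (Nat.cast_nonneg n)
      have h4 := hq (g⁻¹ ^ n) (g ^ n)
      have h5 : g⁻¹ ^ n * g ^ n = 1 := by rw [← (Commute.inv_left (Commute.refl g)).mul_pow]; simp
      rw [h5] at h4
      have h6 := abs_le.mp h4
      have h7 := neg_abs_le (q 1)
      have h8 := le_abs_self (q 1)
      rw [abs_le]
      constructor <;> linarith [h6.1, h6.2]
    have h3 := tendsto_nhds_unique h1 h2
    linarith
  have hpow : ∀ g (k : ℕ), φ (g ^ k) = k * φ g := by
    intro g k
    rcases Nat.eq_zero_or_pos k with h | h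
    · subst h; simp [hone]
    · have h1 : Filter.Tendsto (fun n : ℕ => (k : ℝ) * (q (g ^ (k * n)) / ((k * n : ℕ) : ℝ))) Filter.atTop
          (nhds (k * φ g)) := by
        apply Filter.Tendsto.const_mul
        exact (hφ g).comp (Filter.tendsto_id.const_mul_atTop' h)
      refine tendsto_nhds_unique (hφ (g ^ k)) (h1.congr fun n => ?_)
      rw [← pow_mul]
      have hk : (k : ℝ) ≠ 0 := by positivity
      push_cast
      rw [← mul_div_assoc, mul_div_mul_left _ _ hk]
  refine ⟨⟨φ, ⟨4 * D, fun g h => ?_⟩, fun g n => ?_⟩, hclose, hφ⟩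
  · have h1 := abs_le.mp (hclose (g * h))
    have h2 := abs_le.mp (hclose g)
    have h3 := abs_le.mp (hclose h)
    have h4 := abs_le.mp (hq g h)
    rw [abs_le]
    constructor <;> linarith [h1.1, h1.2, h2.1, h2.2, h3.1, h3.2, h4.1, h4.2]
  · rcases n with k | k
    · simp [hpow]
    · rw [zpow_negSucc, hinv, hpow]
      push_cast
      ring

end homog

end Pool.Agent.Helper81.MCG
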