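import Pool.Agent.Helper81.MCG.Plane

set_option autoImplicit false

namespace Pool.Agent.Helper81.MCG

noncomputable section

open Filter Topology

/-- A homeomorphism of `ℝ² - C` that is isotopic to the identity and is the restriction of a
homeomorphism of the plane cannot move a point `c` of `C` across a compact subset of `ℝ² - C` that
separates the plane. -/
lemma isotopy_barrier (f : Surf CC ≃ₜ Surf CC) (hf : IsotopicToId f) (T : ℂ → ℂ) (hT : Continuous T)
    (hfT : ∀ z : Surf CC, (f z : ℂ) = T z) (K U V : Set ℂ) (hK : IsCompact K) (hKC : K ⊆ CCᶜ)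
    (hU : IsOpen U) (hV : IsOpen V) (hUV : Disjoint U V) (hcov : ∀ z, z ∈ K ∨ z ∈ U ∨ z ∈ V)
    (c : ℂ) (hc : c ∈ CC) (hcU : c ∈ U) (hcV : T c ∈ V) : False := by
  obtain ⟨F, hF0, hF1, hF, hF'⟩ := hf
  set KS : Set (Surf CC) := Subtype.val ⁻¹' K with hKS
  have hKSc : IsCompact KS := by
    rw [Subtype.isCompact_iff]
    have : Subtype.val '' KS = K := by
      ext z
      constructor
      · rintro ⟨w, hw, rfl⟩; exact hw
      · intro hz; exact ⟨⟨z, hKC hz⟩, hz, rfl⟩
    rw [this]; exact hK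
  set K' : Set ℂ := (fun p : unitInterval × Surf CC => (((F p.1)⁻¹ p.2 : Surf CC) : ℂ)) '' (Set.univ ×ˢ KS)
    with hK'
  have hK'c : IsCompact K' :=
    (isCompact_univ.prod hKSc).image (continuous_subtype_val.comp hF')
  have hcK' : c ∉ K' := by
    rintro ⟨p, -, hp⟩
    have := ((F p.1)⁻¹ p.2).2
    beta_reduce at hp
    rw [hp] at this
    exact this hc
  have hW : K'ᶜ ∩ U ∩ T ⁻¹' V ∈ 𝓝 c :=
    Filter.inter_mem (Filter.inter_mem (hK'c.isClosed.isOpen_compl.mem_nhds hcK') (hU.mem_nhds hcU))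
      ((hV.preimage hT).mem_nhds hcV)
  -- a point near `c` off the Cantor set
  obtain ⟨x, hxW, hxC⟩ : ∃ x, x ∈ K'ᶜ ∩ U ∩ T ⁻¹' V ∧ x ∉ CC := by
    obtain ⟨δ, hδ, hball⟩ := Metric.mem_nhds_iff.mp hW
    refine ⟨c + ((δ / 2 : ℝ) : ℂ) * Complex.I, hball ?_, fun h => ?_⟩
    · rw [Metric.mem_ball, dist_eq_norm, add_sub_cancel_left, norm_mul, Complex.norm_real,
        Complex.norm_I, mul_one, Real.norm_eq_abs, abs_of_pos (by positivity)]
      linarith
    · have h1 := h.1
      simp only [Complex.add_im, hc.1, Complex.mul_im, Complex.ofReal_re, Complex.I_im, mul_one,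
        Complex.ofReal_im, Complex.I_re, mul_zero, add_zero, zero_add] at h1
      linarith
  set y : Surf CC := ⟨x, hxC⟩ with hy
  let γ : unitInterval → ℂ := fun t => (F t y : ℂ)
  have hγ : Continuous γ := continuous_subtype_val.comp (hF.comp (continuous_id.prodMk continuous_const))
  have hγ0 : γ 0 = x := by simp only [γ, hF0]; rfl
  have hγ1 : γ 1 = T x := by simp only [γ, hF1, hfT]; rfl
  have hγK : ∀ t, γ t ∉ K := by
    intro t ht
    apply hxW.1.1
    refine ⟨(t, F t y), ⟨Set.mem_univ _, ht⟩, ?_⟩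
    change (((F t)⁻¹ (F t y) : Surf CC) : ℂ) = x
    have : (F t)⁻¹ (F t y) = y := (F t).symm_apply_apply y
    rw [this]
  have hpre : IsPreconnected (Set.univ : Set unitInterval) := isPreconnected_univ
  have := hpre (γ ⁻¹' U) (γ ⁻¹' V) (hU.preimage hγ) (hV.preimage hγ)
    (fun t _ => by
      rcases hcov (γ t) with h | h | h
      · exact absurd h (hγK t)
      · exact Or.inl h
      · exact Or.inr h)
    ⟨0, Set.mem_univ _, by rw [Set.mem_preimage, hγ0]; exact hxW.1.2⟩
    ⟨1, Set.mem_univ _, by rw [Set.mem_preimage, hγ1]; exact hxW.2⟩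
  obtain ⟨t, -, ht1, ht2⟩ := this
  exact Set.disjoint_left.mp hUV ht1 ht2

lemma not_isotopic (g : AQ) (q : ℚ) (hq : q < g q) : ¬ IsotopicToId (surfHom g) := by
  intro h
  set m := Lft q + wt q / 2 with hm
  have hw := wt_pos q
  set R : Set ℂ := {z | z.re ∈ Set.Icc (-1) m ∧ z.im ∈ Set.Icc (-1 : ℝ) 1} with hR
  set U : Set ℂ := {z | z.re ∈ Set.Ioo (-1) m ∧ z.im ∈ Set.Ioo (-1 : ℝ) 1} with hU
  have hRclosed : IsClosed R :=
    (isClosed_Icc.preimage Complex.continuous_re).inter (isClosed_Icc.preimage Complex.continuous_im)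
  have hUopen : IsOpen U :=
    (isOpen_Ioo.preimage Complex.continuous_re).inter (isOpen_Ioo.preimage Complex.continuous_im)
  have hRb : Bornology.IsBounded R := by
    rw [Metric.isBounded_iff_subset_closedBall (0 : ℂ)]
    refine ⟨(1 + |m|) + 1, fun z hz => ?_⟩
    rw [mem_closedBall_zero_iff]
    have h1 : |z.re| ≤ 1 + |m| := by
      rw [abs_le]
      constructor
      · linarith [hz.1.1, abs_nonneg m]
      · linarith [hz.1.2, le_abs_self m]
    have h2 : |z.im| ≤ 1 := abs_le.mpr hz.2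
    exact le_trans (Complex.norm_le_abs_re_add_abs_im z) (by linarith)
  have hRc : IsCompact R := Metric.isCompact_of_isClosed_isBounded hRclosed hRb
  refine isotopy_barrier (surfHom g) h (planeMap g) (planeMap_continuous g) (fun z => rfl)
    (R \ U) U Rᶜ (hRc.diff hUopen) ?_ hUopen hRclosed.isOpen_compl ?_ ?_ (Lft q : ℂ) ?_ ?_ ?_
  · rintro z ⟨hz1, hz2⟩ hzC
    apply hz2
    refine ⟨⟨?_, ?_⟩, ?_, ?_⟩
    · linarith [hzC.2.1.1]
    · apply lt_of_le_of_ne hz1.1.2
      intro h3
      exact hzC.2.2 q ⟨by rw [h3]; linarith, by rw [h3]; linarith⟩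
    · rw [hzC.1]; norm_num
    · rw [hzC.1]; norm_num
  · rw [Set.disjoint_left]
    intro z hz hz'
    exact hz' ⟨⟨hz.1.1.le, hz.1.2.le⟩, ⟨hz.2.1.le, hz.2.2.le⟩⟩
  · intro z
    by_cases h1 : z ∈ R
    · by_cases h2 : z ∈ U
      · exact Or.inr (Or.inl h2)
      · exact Or.inl ⟨h1, h2⟩
    · exact Or.inr (Or.inr h1)
  · exact ⟨by simp, by simpa using Lft_mem_KK q⟩
  · refine ⟨⟨?_, ?_⟩, ?_, ?_⟩ <;> simp only [Complex.ofReal_re, Complex.ofReal_im]
    · linarith [Lft_nonneg q]
    · linarith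
    · norm_num
    · norm_num
  · intro h1
    have h2 := h1.1.2
    simp only [planeMap, Complex.ofReal_re, hat_Lft] at h2
    have h3 := Lft_lt hq
    linarith

/-- The homomorphism from `Aut(ℚ)` to the (extended) mapping class group. -/
def mcgHom : AQ →* ExtMap CC := toExtMap.comp surfHom

theorem mcgHom_injective : Function.Injective mcgHom := by
  rw [injective_iff_map_eq_one]
  intro g hg
  have h1 : surfHom g ∈ homeoZero (Surf CC) := by
    have : QuotientGroup.mk' (homeoZero (Surf CC)) (surfHom g) = 1 := hg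
    rwa [QuotientGroup.mk'_apply, QuotientGroup.eq_one_iff] at this
  have h2 : surfHom g⁻¹ ∈ homeoZero (Surf CC) := by
    rw [map_inv]; exact inv_mem h1
  have h3 : ∀ q, g q = q := by
    intro q
    rcases lt_trichotomy (g q) q with h | h | h
    · exfalso
      refine not_isotopic g⁻¹ (g q) ?_ h2
      have : g⁻¹ (g q) = q := g.symm_apply_apply q
      rw [this]; exact h
    · exact h
    · exact absurd h1 (not_isotopic g q h)
  ext q
  rw [h3 q]; rfl

theorem main : ∃ C : Set ℂ, IsCantorSet C ∧ ∀ n : ℕ, ∃ H : Subgroup (ExtMap C),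
    (H : Set (ExtMap C)) ⊆ MapClasses C ∧ ¬ Amenable H ∧ dimQTilde H = n := by
  refine ⟨CC, CC_cantor, fun n => ?_⟩
  have hinj : Function.Injective (mcgHom.comp (gamHom n)) :=
    mcgHom_injective.comp (gamHom_injective n)
  refine ⟨(mcgHom.comp (gamHom n)).range, ?_, ?_, ?_⟩
  · rintro h ⟨g, rfl⟩
    exact ⟨surfHom (gamHom n g), surfHom_orientation _, rfl⟩
  · intro hA
    have e := MonoidHom.ofInjective hinj
    exact not_amenable_Gam n (amenable_of_surjective e.symm.toMonoidHom e.symm.surjective hA)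
  · have e := MonoidHom.ofInjective hinj
    rw [← rank_Gam n]
    exact (qtildeEquiv e.symm).rank_eq.symm

end

end Pool.Agent.Helper81.MCG
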