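import Pool.Agent.Helper81.MCG.Gamma

set_option autoImplicit false

namespace Pool.Agent.Helper81.MCG

noncomputable section

open Filter Topology

/-! ### Realising `Aut(ℚ)` by homeomorphisms of the real line preserving a Cantor set -/

/-- positive summable weights on ℚ -/
def wt (q : ℚ) : ℝ := (1 / 2) ^ Encodable.encode q

lemma wt_pos (q : ℚ) : 0 < wt q := by unfold wt; positivity

lemma wt_summable : Summable wt := summable_geometric_two_encode

lemma summable_ite (P : ℚ → Prop) [DecidablePred P] : Summable fun p => if P p then wt p else 0 := by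
  refine Summable.of_nonneg_of_le (fun p => ?_) (fun p => ?_) wt_summable
  · split_ifs
    · exact (wt_pos p).le
    · exact le_rfl
  · split_ifs
    · exact le_rfl
    · exact (wt_pos p).le

/-- left end point of the gap attached to `q` -/
def Lft (q : ℚ) : ℝ := ∑' p, if p < q then wt p else 0

def Tot : ℝ := ∑' p, wt p

lemma Tot_pos : 0 < Tot := by
  have h1 := wt_summable.sum_le_tsum {0} (fun i _ => (wt_pos i).le)
  simp only [Finset.sum_singleton] at h1
  exact lt_of_lt_of_le (wt_pos 0) h1

lemma Lft_nonneg (q : ℚ) : 0 ≤ Lft q := tsum_nonneg fun p => by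
  split_ifs
  · exact (wt_pos p).le
  · exact le_rfl

lemma sum_le_Lft (q : ℚ) (S : Finset ℚ) (hS : ∀ p ∈ S, p < q) : ∑ p ∈ S, wt p ≤ Lft q := by
  have h1 : ∑ p ∈ S, wt p = ∑ p ∈ S, (if p < q then wt p else 0) :=
    Finset.sum_congr rfl fun p hp => by rw [if_pos (hS p hp)]
  rw [h1]
  refine (summable_ite fun p => p < q).sum_le_tsum S (fun p _ => ?_)
  split_ifs
  · exact (wt_pos p).le
  · exact le_rfl

lemma Lft_add_sum_le (q : ℚ) (S : Finset ℚ) (hS : ∀ p ∈ S, q ≤ p) : Lft q + ∑ p ∈ S, wt p ≤ Tot := by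
  have h1 : ∑ p ∈ S, wt p = ∑ p ∈ S, (if ¬ p < q then wt p else 0) :=
    Finset.sum_congr rfl fun p hp => by rw [if_pos (not_lt.mpr (hS p hp))]
  have h2 : ∑ p ∈ S, (if ¬ p < q then wt p else 0) ≤ ∑' p, (if ¬ p < q then wt p else 0) := by
    refine (summable_ite fun p => ¬ p < q).sum_le_tsum S (fun p _ => ?_)
    split_ifs
    · exact le_rfl
    · exact (wt_pos p).le
  have h3 : Tot = Lft q + ∑' p, (if ¬ p < q then wt p else 0) := by
    rw [Tot, Lft, ← (summable_ite fun p => p < q).tsum_add (summable_ite fun p => ¬ p < q)]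
    congr 1
    funext p
    by_cases h : p < q <;> simp [h]
  rw [h1, h3]
  linarith

lemma Lft_add_le_Tot (q : ℚ) : Lft q + wt q ≤ Tot := by
  have := Lft_add_sum_le q {q} (by simp)
  simpa using this

lemma Lft_lt {p q : ℚ} (h : p < q) : Lft p + wt p ≤ Lft q := by
  have h1 : Lft p + wt p = ∑' r, ((if r < p then wt r else 0) + (if r = p then wt r else 0)) := by
    rw [(summable_ite fun r => r < p).tsum_add (summable_ite fun r => r = p)]
    congr 1
    rw [tsum_ite_eq]
  rw [h1, Lft]
  refine Summable.tsum_le_tsum (fun r => ?_)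
    ((summable_ite fun r => r < p).add (summable_ite fun r => r = p)) (summable_ite fun r => r < q)
  rcases lt_trichotomy r p with hr | hr | hr
  · simp [hr, hr.ne, lt_trans hr h]
  · subst hr; simp [h]
  · have h2 : ¬ r < p := not_lt.mpr hr.le
    simp only [if_neg h2, if_neg hr.ne']
    split_ifs
    · have := wt_pos r; linarith
    · simp

lemma Lft_strictMono : StrictMono Lft := by
  intro p q h
  have := Lft_lt h
  have := wt_pos p
  linarith

def phi (q : ℚ) (t : ℝ) : ℝ := max 0 (min 1 ((t - Lft q) / wt q))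

lemma phi_nonneg (q : ℚ) (t : ℝ) : 0 ≤ phi q t := le_max_left _ _

lemma phi_le_one (q : ℚ) (t : ℝ) : phi q t ≤ 1 := max_le zero_le_one (min_le_left _ _)

lemma phi_zero {q : ℚ} {t : ℝ} (h : t ≤ Lft q) : phi q t = 0 := by
  have : (t - Lft q) / wt q ≤ 0 := div_nonpos_of_nonpos_of_nonneg (by linarith) (wt_pos q).le
  unfold phi
  apply max_eq_left
  exact le_trans (min_le_right _ _) this

lemma phi_one {q : ℚ} {t : ℝ} (h : Lft q + wt q ≤ t) : phi q t = 1 := by
  have : 1 ≤ (t - Lft q) / wt q := by rw [le_div_iff₀ (wt_pos q)]; linarith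
  unfold phi
  rw [min_eq_left this]; simp

lemma phi_mid {q : ℚ} {t : ℝ} (h1 : Lft q ≤ t) (h2 : t ≤ Lft q + wt q) :
    phi q t = (t - Lft q) / wt q := by
  have h3 : 0 ≤ (t - Lft q) / wt q := div_nonneg (by linarith) (wt_pos q).le
  have h4 : (t - Lft q) / wt q ≤ 1 := by rw [div_le_one (wt_pos q)]; linarith
  unfold phi
  rw [min_eq_right h4, max_eq_right h3]

lemma phi_continuous (q : ℚ) : Continuous (phi q) := by
  unfold phi
  fun_prop

lemma phi_eq_zero_iff {q : ℚ} {t : ℝ} : phi q t = 0 ↔ t ≤ Lft q := by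
  constructor
  · intro h
    by_contra hcon
    push Not at hcon
    rcases le_total t (Lft q + wt q) with h2 | h2
    · rw [phi_mid hcon.le h2] at h
      have : 0 < (t - Lft q) / wt q := div_pos (by linarith) (wt_pos q)
      linarith
    · rw [phi_one h2] at h; norm_num at h
  · exact phi_zero

lemma phi_eq_one_iff {q : ℚ} {t : ℝ} : phi q t = 1 ↔ Lft q + wt q ≤ t := by
  constructor
  · intro h
    by_contra hcon
    push Not at hcon
    rcases le_total (Lft q) t with h2 | h2
    · rw [phi_mid h2 hcon.le, div_eq_one_iff_eq (wt_pos q).ne'] at h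
      linarith
    · rw [phi_zero h2] at h; norm_num at h
  · exact phi_one

lemma wt_phi_le {q : ℚ} {t : ℝ} (h : Lft q ≤ t) : wt q * phi q t ≤ t - Lft q := by
  rcases le_total t (Lft q + wt q) with h2 | h2
  · rw [phi_mid h h2]
    have := (wt_pos q).ne'
    field_simp
    exact le_rfl
  · rw [phi_one h2]; linarith

lemma wt_one_sub_phi_le {q : ℚ} {t : ℝ} (h : t ≤ Lft q + wt q) :
    wt q * (1 - phi q t) ≤ Lft q + wt q - t := by
  rcases le_total (Lft q) t with h2 | h2
  · rw [phi_mid h2 h]
    have := (wt_pos q).ne'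
    have e : wt q * (1 - (t - Lft q) / wt q) = Lft q + wt q - t := by
      field_simp
      ring
    rw [e]
  · rw [phi_zero h2]; linarith

lemma summable_phi {u : ℚ → ℝ} (hu : Summable u) (hu0 : ∀ q, 0 ≤ u q) (t : ℝ) :
    Summable fun q => u q * phi q t := by
  refine Summable.of_nonneg_of_le (fun q => mul_nonneg (hu0 q) (phi_nonneg q t)) (fun q => ?_) hu
  have := mul_le_mul_of_nonneg_left (phi_le_one q t) (hu0 q)
  simpa using this

lemma V_le {t : ℝ} (ht : 0 ≤ t) : ∑' q, wt q * phi q t ≤ t := by
  refine (summable_phi wt_summable (fun q => (wt_pos q).le) t).tsum_le_of_sum_le fun F => ?_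
  classical
  set F' := F.filter fun q => Lft q < t with hF'
  have h1 : ∑ q ∈ F, wt q * phi q t = ∑ q ∈ F', wt q * phi q t := by
    symm
    apply Finset.sum_subset (Finset.filter_subset _ _)
    intro q hq hq'
    have : t ≤ Lft q := by
      by_contra hcon
      push Not at hcon
      exact hq' (Finset.mem_filter.mpr ⟨hq, hcon⟩)
    rw [phi_zero this, mul_zero]
  rw [h1]
  rcases F'.eq_empty_or_nonempty with he | hne
  · rw [he]; simpa using ht
  · set p := F'.max' hne with hp
    have hpF : p ∈ F' := Finset.max'_mem _ _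
    have hpt : Lft p < t := (Finset.mem_filter.mp hpF).2
    rw [← Finset.add_sum_erase _ _ hpF]
    have h2 : ∑ q ∈ F'.erase p, wt q * phi q t ≤ ∑ q ∈ F'.erase p, wt q := by
      refine Finset.sum_le_sum fun q _ => ?_
      have := mul_le_mul_of_nonneg_left (phi_le_one q t) (wt_pos q).le
      simpa using this
    have h3 : ∑ q ∈ F'.erase p, wt q ≤ Lft p := by
      apply sum_le_Lft
      intro q hq
      exact lt_of_le_of_ne (Finset.le_max' _ _ (Finset.mem_of_mem_erase hq)) (Finset.ne_of_mem_erase hq)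
    have h4 := wt_phi_le hpt.le
    linarith

lemma V_ge {t : ℝ} (ht : t ≤ Tot) : t ≤ ∑' q, wt q * phi q t := by
  have hs := summable_phi wt_summable (fun q => (wt_pos q).le) t
  have key : ∑' q, wt q * (1 - phi q t) ≤ Tot - t := by
    have hs2 : Summable fun q => wt q * (1 - phi q t) := by
      have := wt_summable.sub hs
      refine this.congr fun q => ?_
      ring
    refine hs2.tsum_le_of_sum_le fun F => ?_
    classical
    set F' := F.filter fun q => t < Lft q + wt q with hF'
    have h1 : ∑ q ∈ F, wt q * (1 - phi q t) = ∑ q ∈ F', wt q * (1 - phi q t) := by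
      symm
      apply Finset.sum_subset (Finset.filter_subset _ _)
      intro q hq hq'
      have : Lft q + wt q ≤ t := by
        by_contra hcon
        push Not at hcon
        exact hq' (Finset.mem_filter.mpr ⟨hq, hcon⟩)
      rw [phi_one this]; ring
    rw [h1]
    rcases F'.eq_empty_or_nonempty with he | hne
    · rw [he]; simpa using ht
    · set p := F'.min' hne with hp
      have hpF : p ∈ F' := Finset.min'_mem _ _
      have hpt : t < Lft p + wt p := (Finset.mem_filter.mp hpF).2
      rw [← Finset.add_sum_erase _ _ hpF]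
      have h2 : ∑ q ∈ F'.erase p, wt q * (1 - phi q t) ≤ ∑ q ∈ F'.erase p, wt q := by
        refine Finset.sum_le_sum fun q _ => ?_
        have := phi_nonneg q t
        have := wt_pos q
        nlinarith
      have h3 : Lft p + ∑ q ∈ F', wt q ≤ Tot := by
        apply Lft_add_sum_le
        intro q hq
        exact Finset.min'_le _ _ hq
      rw [← Finset.add_sum_erase _ _ hpF] at h3
      have h4 := wt_one_sub_phi_le hpt.le
      linarith
  have h5 : ∑' q, wt q * (1 - phi q t) = Tot - ∑' q, wt q * phi q t := by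
    rw [Tot, ← wt_summable.tsum_sub hs]
    congr 1
    funext q
    ring
  rw [h5] at key
  linarith

lemma V_eq {t : ℝ} (h0 : 0 ≤ t) (h1 : t ≤ Tot) : ∑' q, wt q * phi q t = t :=
  le_antisymm (V_le h0) (V_ge h1)

/-! ### the action -/

lemma wt_comp_summable (g : AQ) : Summable fun q => wt (g q) := by
  have := (g.toEquiv.summable_iff (f := wt)).mpr wt_summable
  exact this

def hat (g : AQ) (t : ℝ) : ℝ := t + ∑' q, (wt (g q) - wt q) * phi q t

lemma hat_eq (g : AQ) {t : ℝ} (h0 : 0 ≤ t) (h1 : t ≤ Tot) : hat g t = ∑' q, wt (g q) * phi q t := by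
  unfold hat
  have e : ∑' q, (wt (g q) - wt q) * phi q t = ∑' q, wt (g q) * phi q t - ∑' q, wt q * phi q t := by
    rw [← (summable_phi (wt_comp_summable g) (fun q => (wt_pos _).le) t).tsum_sub
      (summable_phi wt_summable (fun q => (wt_pos q).le) t)]
    congr 1
    funext q; ring
  rw [e, V_eq h0 h1]; ring

lemma hat_neg (g : AQ) {t : ℝ} (h : t ≤ 0) : hat g t = t := by
  unfold hat
  have : ∀ q, (wt (g q) - wt q) * phi q t = 0 := fun q => by
    rw [phi_zero (le_trans h (Lft_nonneg q)), mul_zero]
  simp [this]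

lemma hat_big (g : AQ) {t : ℝ} (h : Tot ≤ t) : hat g t = t := by
  unfold hat
  have : ∀ q, (wt (g q) - wt q) * phi q t = wt (g q) - wt q := fun q => by
    rw [phi_one (le_trans (Lft_add_le_Tot q) h), mul_one]
  simp only [this]
  rw [(wt_comp_summable g).tsum_sub wt_summable]
  have e : ∑' q, wt (g q) = ∑' q, wt q := g.toEquiv.tsum_eq wt
  rw [e]; ring

lemma Lft_map (h : AQ) (q : ℚ) : Lft (h q) = ∑' p, if p < q then wt (h p) else 0 := by
  rw [Lft, ← h.toEquiv.tsum_eq]
  congr 1
  funext p
  change (if h p < h q then wt (h p) else 0) = _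
  simp only [h.lt_iff_lt]

lemma summable_ite_map (h : AQ) (P : ℚ → Prop) [DecidablePred P] :
    Summable fun p => if P p then wt (h p) else 0 := by
  refine Summable.of_nonneg_of_le (fun p => ?_) (fun p => ?_) (wt_comp_summable h)
  · split_ifs
    · exact (wt_pos _).le
    · exact le_rfl
  · split_ifs
    · exact le_rfl
    · exact (wt_pos _).le

lemma phi_hat (h : AQ) (q : ℚ) (t : ℝ) : phi (h q) (hat h t) = phi q t := by
  rcases le_total t 0 with ht | ht
  · rw [hat_neg h ht, phi_zero (le_trans ht (Lft_nonneg _)), phi_zero (le_trans ht (Lft_nonneg _))]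
  rcases le_total Tot t with ht' | ht'
  · rw [hat_big h ht', phi_one (le_trans (Lft_add_le_Tot _) ht'), phi_one (le_trans (Lft_add_le_Tot _) ht')]
  have hs := summable_phi (wt_comp_summable h) (fun q => (wt_pos _).le) t
  rw [hat_eq h ht ht']
  rcases le_or_gt t (Lft q) with h1 | h1
  · rw [phi_zero h1]
    apply phi_zero
    rw [Lft_map]
    refine hs.tsum_le_tsum (fun p => ?_) (summable_ite_map h fun p => p < q)
    by_cases hpq : p < q
    · rw [if_pos hpq]
      have := mul_le_mul_of_nonneg_left (phi_le_one p t) (wt_pos (h p)).le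
      simpa using this
    · rw [if_neg hpq]
      push Not at hpq
      rw [phi_zero (le_trans h1 (Lft_strictMono.monotone hpq)), mul_zero]
  rcases le_or_gt (Lft q + wt q) t with h2 | h2
  · rw [phi_one h2]
    apply phi_one
    have e : Lft (h q) + wt (h q) = ∑' p, ((if p < q then wt (h p) else 0) + (if p = q then wt (h p) else 0)) := by
      rw [(summable_ite_map h fun p => p < q).tsum_add (summable_ite_map h fun p => p = q), ← Lft_map]
      congr 1
      rw [tsum_ite_eq]
    rw [e]
    refine Summable.tsum_le_tsum (fun p => ?_)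
      ((summable_ite_map h fun p => p < q).add (summable_ite_map h fun p => p = q)) hs
    rcases lt_trichotomy p q with hp | hp | hp
    · have : phi p t = 1 := phi_one (by have := Lft_lt hp; linarith [wt_pos q])
      rw [this]; simp [hp, hp.ne]
    · subst hp; rw [phi_one h2]; simp
    · have h3 : ¬ p < q := not_lt.mpr hp.le
      simp only [if_neg h3, if_neg hp.ne']
      have := mul_nonneg (wt_pos (h p)).le (phi_nonneg p t)
      linarith
  · have e : ∑' p, wt (h p) * phi p t = Lft (h q) + wt (h q) * phi q t := by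
      rw [Lft_map]
      have e2 : wt (h q) * phi q t = ∑' p, (if p = q then wt (h p) * phi p t else 0) := by
        rw [tsum_ite_eq]
      have hs2 : Summable fun p => (if p = q then wt (h p) * phi p t else 0) := by
        refine Summable.of_nonneg_of_le (fun p => ?_) (fun p => ?_) hs
        · split_ifs
          · exact mul_nonneg (wt_pos _).le (phi_nonneg _ _)
          · exact le_rfl
        · split_ifs
          · exact le_rfl
          · exact mul_nonneg (wt_pos _).le (phi_nonneg _ _)
      rw [e2, ← (summable_ite_map h fun p => p < q).tsum_add hs2]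
      congr 1
      funext p
      rcases lt_trichotomy p q with hp | hp | hp
      · have : phi p t = 1 := phi_one (by have := Lft_lt hp; linarith [wt_pos q])
        rw [this]; simp [hp, hp.ne]
      · subst hp; simp
      · have h3 : ¬ p < q := not_lt.mpr hp.le
        have : phi p t = 0 := phi_zero (by have := Lft_lt hp; linarith [wt_pos q])
        rw [this]; simp [h3, hp.ne']
    rw [e]
    have h5 : 0 ≤ phi q t := phi_nonneg _ _
    have h6 : phi q t ≤ 1 := phi_le_one _ _
    have hw := wt_pos (h q)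
    rw [phi_mid (by nlinarith) (by nlinarith)]
    rw [add_sub_cancel_left, mul_div_cancel_left₀ _ hw.ne']

lemma hat_mul (g h : AQ) (t : ℝ) : hat (g * h) t = hat g (hat h t) := by
  have hs1 : Summable fun q => (wt (h q) - wt q) * phi q t := by
    have := (summable_phi (wt_comp_summable h) (fun q => (wt_pos _).le) t).sub
      (summable_phi wt_summable (fun q => (wt_pos q).le) t)
    refine this.congr fun q => ?_
    ring
  have hs2 : Summable fun q => (wt (g (h q)) - wt (h q)) * phi q t := by
    have h0 : Summable fun q => wt (g (h q)) := wt_comp_summable (g * h)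
    have := (summable_phi h0 (fun q => (wt_pos _).le) t).sub
      (summable_phi (wt_comp_summable h) (fun q => (wt_pos _).le) t)
    refine this.congr fun q => ?_
    ring
  have e1 : ∑' q, (wt (g q) - wt q) * phi q (hat h t) = ∑' q, (wt (g (h q)) - wt (h q)) * phi q t := by
    rw [← h.toEquiv.tsum_eq]
    congr 1
    funext q
    change (wt (g (h q)) - wt (h q)) * phi (h q) (hat h t) = _
    rw [phi_hat]
  have e2 : hat g (hat h t) = hat h t + ∑' q, (wt (g q) - wt q) * phi q (hat h t) := rfl
  rw [e2, e1]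
  unfold hat
  rw [add_assoc, ← hs1.tsum_add hs2]
  congr 2
  funext q
  rw [AQ.mul_apply]
  ring

lemma hat_one (t : ℝ) : hat 1 t = t := by
  unfold hat
  have : ∀ q : ℚ, (wt ((1 : AQ) q) - wt q) * phi q t = 0 := fun q => by
    change (wt q - wt q) * phi q t = 0
    ring
  simp [this]

lemma hat_continuous (g : AQ) : Continuous (hat g) := by
  unfold hat
  refine continuous_id.add ?_
  refine continuous_tsum (u := fun q => wt (g q) + wt q) (fun q => ?_) ((wt_comp_summable g).add wt_summable)
    (fun q t => ?_)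
  · exact continuous_const.mul (phi_continuous q)
  · rw [Real.norm_eq_abs, abs_mul, abs_of_nonneg (phi_nonneg q t)]
    have h1 : |wt (g q) - wt q| ≤ wt (g q) + wt q := by
      rw [abs_le]; constructor <;> linarith [wt_pos (g q), wt_pos q]
    have h2 := phi_le_one q t
    have h3 := phi_nonneg q t
    have h4 := abs_nonneg (wt (g q) - wt q)
    nlinarith

/-- the homeomorphism of the line attached to an automorphism of ℚ -/
def hatHomeo (g : AQ) : ℝ ≃ₜ ℝ where
  toFun := hat g
  invFun := hat g⁻¹
  left_inv t := by rw [← hat_mul, inv_mul_cancel, hat_one]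
  right_inv t := by rw [← hat_mul, mul_inv_cancel, hat_one]
  continuous_toFun := hat_continuous g
  continuous_invFun := hat_continuous g⁻¹

lemma hat_strictMono (g : AQ) : StrictMono (hat g) := by
  have h1 : Monotone (hat g) := by
    intro s t hst
    rcases le_total s 0 with hs | hs
    · rcases le_total t 0 with ht | ht
      · rw [hat_neg g hs, hat_neg g ht]; exact hst
      · rw [hat_neg g hs]
        rcases le_total Tot t with ht' | ht'
        · rw [hat_big g ht']; exact hst
        · rw [hat_eq g ht ht']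
          exact le_trans hs (tsum_nonneg fun q => mul_nonneg (wt_pos _).le (phi_nonneg _ _))
    · have ht : 0 ≤ t := le_trans hs hst
      rcases le_total Tot t with ht' | ht'
      · rw [hat_big g ht']
        rcases le_total Tot s with hs' | hs'
        · rw [hat_big g hs']; exact hst
        · rw [hat_eq g hs hs']
          refine le_trans ?_ ht'
          have : Tot = ∑' q, wt (g q) := (g.toEquiv.tsum_eq wt).symm
          rw [this]
          refine (summable_phi (wt_comp_summable g) (fun q => (wt_pos _).le) s).tsum_le_tsum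
            (fun q => ?_) (wt_comp_summable g)
          have := mul_le_mul_of_nonneg_left (phi_le_one q s) (wt_pos (g q)).le
          simpa using this
      · have hs' : s ≤ Tot := le_trans hst ht'
        rw [hat_eq g hs hs', hat_eq g ht ht']
        refine (summable_phi (wt_comp_summable g) (fun q => (wt_pos _).le) s).tsum_le_tsum
            (fun q => ?_) (summable_phi (wt_comp_summable g) (fun q => (wt_pos _).le) t)
        apply mul_le_mul_of_nonneg_left _ (wt_pos (g q)).le
        unfold phi
        apply max_le_max le_rfl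
        apply min_le_min le_rfl
        apply div_le_div_of_nonneg_right _ (wt_pos q).le
        linarith
  exact h1.strictMono_of_injective (hatHomeo g).injective

/-- The Cantor set in the real line. -/
def KK : Set ℝ := {t | (0 ≤ t ∧ t ≤ Tot) ∧ ∀ q, ¬ (Lft q < t ∧ t < Lft q + wt q)}

lemma KK_phi {t : ℝ} (ht : t ∈ KK) (q : ℚ) : phi q t = 0 ∨ phi q t = 1 := by
  have h := ht.2 q
  by_cases h1 : Lft q < t
  · right
    apply phi_one
    by_contra h2
    push Not at h2
    exact h ⟨h1, h2⟩
  · left
    exact phi_zero (not_lt.mp h1)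

lemma hat_KK (g : AQ) {t : ℝ} (ht : t ∈ KK) : hat g t ∈ KK := by
  refine ⟨⟨?_, ?_⟩, fun q hq => ?_⟩
  · have := (hat_strictMono g).monotone ht.1.1
    rwa [hat_neg g le_rfl] at this
  · have := (hat_strictMono g).monotone ht.1.2
    rwa [hat_big g le_rfl] at this
  · have h1 := phi_hat g (g.symm q) t
    rw [OrderIso.apply_symm_apply] at h1
    rcases KK_phi ht (g.symm q) with h2 | h2
    · rw [h2, phi_eq_zero_iff] at h1; linarith [hq.1]
    · rw [h2, phi_eq_one_iff] at h1; linarith [hq.2]

lemma Lft_mem_KK (q : ℚ) : Lft q ∈ KK := by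
  refine ⟨⟨Lft_nonneg q, by have := Lft_add_le_Tot q; linarith [wt_pos q]⟩, fun p hp => ?_⟩
  have h1 : p < q := Lft_strictMono.lt_iff_lt.mp hp.1
  have := Lft_lt h1
  linarith [hp.2]

lemma hat_Lft (g : AQ) (q : ℚ) : hat g (Lft q) = Lft (g q) := by
  rw [hat_eq g (Lft_nonneg q) (by have := Lft_add_le_Tot q; linarith [wt_pos q]), Lft_map]
  congr 1
  funext p
  by_cases h : p < q
  · rw [if_pos h, phi_one (Lft_lt h), mul_one]
  · rw [if_neg h, phi_zero (Lft_strictMono.monotone (not_lt.mp h)), mul_zero]

lemma KK_closed : IsClosed KK := by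
  have : KK = Set.Icc 0 Tot ∩ ⋂ q, {t | ¬ (Lft q < t ∧ t < Lft q + wt q)} := by
    ext t
    simp [KK, Set.mem_Icc]
  rw [this]
  refine isClosed_Icc.inter (isClosed_iInter fun q => ?_)
  have : {t : ℝ | ¬ (Lft q < t ∧ t < Lft q + wt q)} = (Set.Ioo (Lft q) (Lft q + wt q))ᶜ := rfl
  rw [this]
  exact isOpen_Ioo.isClosed_compl

lemma KK_compact : IsCompact KK :=
  isCompact_Icc.of_isClosed_subset KK_closed fun t ht => ht.1

lemma KK_gap {s t : ℝ} (hs : s ∈ KK) (ht : t ∈ KK) (hst : s < t) :
    ∃ q, s ≤ Lft q ∧ Lft q + wt q ≤ t := by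
  by_contra hcon
  push Not at hcon
  have h1 : ∑' q, wt q * phi q t ≤ ∑' q, wt q * phi q s := by
    refine (summable_phi wt_summable (fun q => (wt_pos q).le) t).tsum_le_tsum
            (fun q => ?_) (summable_phi wt_summable (fun q => (wt_pos q).le) s)
    apply mul_le_mul_of_nonneg_left _ (wt_pos q).le
    rcases KK_phi ht q with h | h
    · rw [h]; exact phi_nonneg _ _
    · rcases KK_phi hs q with h' | h'
      · exfalso
        have h2 := hcon q (phi_eq_zero_iff.mp h')
        have h3 := phi_eq_one_iff.mp h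
        linarith
      · rw [h, h']
  rw [V_eq ht.1.1 ht.1.2, V_eq hs.1.1 hs.1.2] at h1
  linarith

lemma Rgt_mem_KK (q : ℚ) : Lft q + wt q ∈ KK := by
  refine ⟨⟨by have := Lft_nonneg q; linarith [wt_pos q], Lft_add_le_Tot q⟩, fun p hp => ?_⟩
  rcases lt_trichotomy p q with h | h | h
  · have := Lft_lt h
    linarith [hp.2, wt_pos q]
  · subst h; linarith [hp.2]
  · have := Lft_lt h
    linarith [hp.1]

lemma zero_mem_KK : (0 : ℝ) ∈ KK :=
  ⟨⟨le_rfl, Tot_pos.le⟩, fun q hq => by linarith [hq.1, Lft_nonneg q]⟩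

lemma Tot_mem_KK : Tot ∈ KK :=
  ⟨⟨Tot_pos.le, le_rfl⟩, fun q hq => by linarith [hq.2, Lft_add_le_Tot q]⟩

lemma right_gap {t δ : ℝ} (ht : t ∈ KK) (htT : t < Tot) (hδ : 0 < δ)
    (h : ∀ s ∈ KK, t < s → t + δ ≤ s) : ∃ q, Lft q = t := by
  set S : Set ℝ := KK ∩ Set.Ici (t + δ) with hS
  have hSc : IsClosed S := KK_closed.inter isClosed_Ici
  have hSn : S.Nonempty := ⟨Tot, Tot_mem_KK, h Tot Tot_mem_KK htT⟩
  have hSb : BddBelow S := ⟨t + δ, fun x hx => hx.2⟩
  have hmem := hSc.csInf_mem hSn hSb
  obtain ⟨q, hq1, hq2⟩ := KK_gap ht hmem.1 (by have := hmem.2; simp only [Set.mem_Ici] at this; linarith)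
  refine ⟨q, ?_⟩
  by_contra hne
  have h1 : t < Lft q := lt_of_le_of_ne hq1 (Ne.symm hne)
  have h2 : Lft q ∈ S := ⟨Lft_mem_KK q, h _ (Lft_mem_KK q) h1⟩
  have h3 := csInf_le hSb h2
  linarith [wt_pos q]

lemma left_gap {t δ : ℝ} (ht : t ∈ KK) (htT : 0 < t) (hδ : 0 < δ)
    (h : ∀ s ∈ KK, s < t → s ≤ t - δ) : ∃ q, Lft q + wt q = t := by
  set S : Set ℝ := KK ∩ Set.Iic (t - δ) with hS
  have hSc : IsClosed S := KK_closed.inter isClosed_Iic
  have hSn : S.Nonempty := ⟨0, zero_mem_KK, h 0 zero_mem_KK htT⟩
  have hSb : BddAbove S := ⟨t - δ, fun x hx => hx.2⟩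
  have hmem := hSc.csSup_mem hSn hSb
  obtain ⟨q, hq1, hq2⟩ := KK_gap hmem.1 ht (by have := hmem.2; simp only [Set.mem_Iic] at this; linarith)
  refine ⟨q, ?_⟩
  by_contra hne
  have h1 : Lft q + wt q < t := lt_of_le_of_ne hq2 hne
  have h2 : Lft q + wt q ∈ S := ⟨Rgt_mem_KK q, h _ (Rgt_mem_KK q) h1⟩
  have h3 := le_csSup hSb h2
  linarith [wt_pos q]

lemma KK_not_isolated {t δ : ℝ} (ht : t ∈ KK) (hδ : 0 < δ) : ∃ s ∈ KK, s ≠ t ∧ |s - t| < δ := by
  by_contra hcon
  push Not at hcon
  have hr : ∀ s ∈ KK, t < s → t + δ ≤ s := by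
    intro s hs hts
    have := hcon s hs hts.ne'
    rw [abs_of_pos (by linarith)] at this
    linarith
  have hl : ∀ s ∈ KK, s < t → s ≤ t - δ := by
    intro s hs hts
    have := hcon s hs hts.ne
    rw [abs_of_neg (by linarith)] at this
    linarith
  rcases lt_or_ge t Tot with hT | hT
  · obtain ⟨q, hq⟩ := right_gap ht hT hδ hr
    rcases lt_or_ge 0 t with h0 | h0
    · obtain ⟨p, hp⟩ := left_gap ht h0 hδ hl
      have hpq : p < q := by
        rw [← Lft_strictMono.lt_iff_lt]
        linarith [wt_pos p]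
      obtain ⟨r, hpr, hrq⟩ := exists_between hpq
      have h1 := Lft_lt hpr
      have h2 := Lft_lt hrq
      linarith [wt_pos r]
    · obtain ⟨r, hr'⟩ := exists_lt q
      have h1 := Lft_lt hr'
      linarith [wt_pos r, Lft_nonneg r]
  · obtain ⟨p, hp⟩ := left_gap ht (lt_of_lt_of_le Tot_pos hT) hδ hl
    obtain ⟨r, hr'⟩ := exists_gt p
    have h1 := Lft_lt hr'
    have h2 := Lft_add_le_Tot r
    linarith [wt_pos r]

end

end Pool.Agent.Helper81.MCG
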