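import Pool.Agent.Helper81.MCG.Line

set_option autoImplicit false

namespace Pool.Agent.Helper81.MCG

noncomputable section

open Filter Topology

/-- The Cantor set in the plane. -/
def CC : Set ℂ := {z | z.im = 0 ∧ z.re ∈ KK}

lemma CC_eq : CC = (fun t : ℝ => (t : ℂ)) '' KK := by
  ext z
  constructor
  · rintro ⟨h1, h2⟩
    exact ⟨z.re, h2, by apply Complex.ext <;> simp [h1]⟩
  · rintro ⟨t, ht, rfl⟩
    exact ⟨by simp, by simpa using ht⟩

theorem CC_cantor : IsCantorSet CC := by
  refine ⟨⟨0, by simp [CC, zero_mem_KK]⟩, ?_, ?_, ?_⟩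
  · rw [CC_eq]
    exact KK_compact.image Complex.continuous_ofReal
  · intro S hS hpre x hx y hy
    have hpre' : IsPreconnected (Complex.re '' S) := hpre.image _ Complex.continuous_re.continuousOn
    have hsub : ∀ t ∈ Complex.re '' S, t ∈ KK := by
      rintro t ⟨z, hz, rfl⟩
      exact (hS hz).2
    have key : ∀ s ∈ Complex.re '' S, ∀ t ∈ Complex.re '' S, ¬ s < t := by
      intro s hs t ht hst
      obtain ⟨q, h1, h2⟩ := KK_gap (hsub s hs) (hsub t ht) hst
      have h3 := hpre'.ordConnected.out hs ht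
      have h4 : Lft q + wt q / 2 ∈ Set.Icc s t := ⟨by linarith [wt_pos q], by linarith [wt_pos q]⟩
      exact (hsub _ (h3 h4)).2 q ⟨by linarith [wt_pos q], by linarith [wt_pos q]⟩
    apply Complex.ext
    · apply le_antisymm
      · exact not_lt.mp (key _ ⟨y, hy, rfl⟩ _ ⟨x, hx, rfl⟩)
      · exact not_lt.mp (key _ ⟨x, hx, rfl⟩ _ ⟨y, hy, rfl⟩)
    · rw [(hS hx).1, (hS hy).1]
  · intro z hz
    rw [accPt_iff_nhds]
    intro U hU
    obtain ⟨δ, hδ, hball⟩ := Metric.mem_nhds_iff.mp hU
    obtain ⟨s, hs, hne, hlt⟩ := KK_not_isolated hz.2 hδ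
    refine ⟨(s : ℂ), ⟨hball ?_, by simpa [CC] using hs⟩, fun h => hne ?_⟩
    · rw [Metric.mem_ball, dist_eq_norm]
      have : (s : ℂ) - z = ((s - z.re : ℝ) : ℂ) := by
        apply Complex.ext <;> simp [hz.1]
      rw [this, Complex.norm_real]
      exact hlt
    · rw [← h]; simp

/-- The action of `Aut(ℚ)` on the plane. -/
def planeMap (g : AQ) (z : ℂ) : ℂ := ⟨hat g z.re, z.im⟩

lemma planeMap_continuous (g : AQ) : Continuous (planeMap g) := by
  have h1 : Continuous fun z : ℂ => ((hat g z.re : ℝ) : ℂ) + (z.im : ℂ) * Complex.I := by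
    have h2 : Continuous fun z : ℂ => hat g z.re := (hat_continuous g).comp Complex.continuous_re
    have h3 : Continuous fun z : ℂ => z.im := Complex.continuous_im
    exact (Complex.continuous_ofReal.comp h2).add ((Complex.continuous_ofReal.comp h3).mul continuous_const)
  convert h1 using 2 with z
  apply Complex.ext <;> simp [planeMap]

lemma planeMap_mul (g h : AQ) (z : ℂ) : planeMap (g * h) z = planeMap g (planeMap h z) := by
  simp only [planeMap, hat_mul]

lemma planeMap_one (z : ℂ) : planeMap 1 z = z := by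
  simp only [planeMap, hat_one]

lemma planeMap_mem (g : AQ) {z : ℂ} (hz : z ∈ CC) : planeMap g z ∈ CC :=
  ⟨hz.1, hat_KK g hz.2⟩

lemma planeMap_not_mem (g : AQ) {z : ℂ} (hz : z ∉ CC) : planeMap g z ∉ CC := by
  intro h
  apply hz
  have := planeMap_mem g⁻¹ h
  rwa [← planeMap_mul, inv_mul_cancel, planeMap_one] at this

/-- The homeomorphism of `ℝ² - C` attached to `g`. -/
def surfHomeo (g : AQ) : Surf CC ≃ₜ Surf CC where
  toFun z := ⟨planeMap g z, planeMap_not_mem g z.2⟩
  invFun z := ⟨planeMap g⁻¹ z, planeMap_not_mem g⁻¹ z.2⟩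
  left_inv z := by
    apply Subtype.ext
    change planeMap g⁻¹ (planeMap g z) = z
    rw [← planeMap_mul, inv_mul_cancel, planeMap_one]
  right_inv z := by
    apply Subtype.ext
    change planeMap g (planeMap g⁻¹ z) = z
    rw [← planeMap_mul, mul_inv_cancel, planeMap_one]
  continuous_toFun := ((planeMap_continuous g).comp continuous_subtype_val).subtype_mk _
  continuous_invFun := ((planeMap_continuous g⁻¹).comp continuous_subtype_val).subtype_mk _

/-- The homomorphism `Aut(ℚ) → Homeo(ℝ² - C)`. -/
def surfHom : AQ →* (Surf CC ≃ₜ Surf CC) where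
  toFun := surfHomeo
  map_one' := by
    ext z
    apply congrArg Subtype.val (a₁ := surfHomeo 1 z) (a₂ := z)
    apply Subtype.ext
    exact planeMap_one z
  map_mul' g h := by
    ext z
    apply congrArg Subtype.val (a₁ := surfHomeo (g * h) z) (a₂ := surfHomeo g (surfHomeo h z))
    apply Subtype.ext
    exact planeMap_mul g h z

lemma surfHom_coe (g : AQ) (z : Surf CC) : ((surfHom g z : Surf CC) : ℂ) = planeMap g z := rfl

/-- the homeomorphisms `surfHom g` preserve the orientation -/
theorem surfHom_orientation (g : AQ) : OrientationPreserving (surfHom g) := by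
  intro z
  have hopen : IsOpen (CCᶜ) := CC_cantor.2.1.isClosed.isOpen_compl
  obtain ⟨ε, hε, hball⟩ := Metric.isOpen_iff.mp hopen z z.2
  refine ⟨ε / 2, by positivity, fun w hw => hball (Metric.closedBall_subset_ball (by linarith) hw), ?_⟩
  let H : unitInterval × Metric.sphere (0 : ℂ) 1 → ℂ := fun p =>
    (1 - (p.1 : ℝ) : ℝ) * (p.2 : ℂ) + ((p.1 : ℝ) : ℂ) * (planeMap g (z + ((ε / 2 : ℝ) : ℂ) * p.2) - planeMap g z)
  refine ⟨H, ?_, ?_, ?_, ?_⟩
  · have h1 : Continuous fun p : unitInterval × Metric.sphere (0 : ℂ) 1 => (p.1 : ℝ) :=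
      continuous_subtype_val.comp continuous_fst
    have h2 : Continuous fun p : unitInterval × Metric.sphere (0 : ℂ) 1 => (p.2 : ℂ) :=
      continuous_subtype_val.comp continuous_snd
    have h3 : Continuous fun p : unitInterval × Metric.sphere (0 : ℂ) 1 =>
        planeMap g (z + ((ε / 2 : ℝ) : ℂ) * p.2) :=
      (planeMap_continuous g).comp (continuous_const.add (continuous_const.mul h2))
    exact ((Complex.continuous_ofReal.comp (continuous_const.sub h1)).mul h2).add
      ((Complex.continuous_ofReal.comp h1).mul (h3.sub continuous_const))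
  · rintro ⟨s, u⟩ h
    have hs0 : 0 ≤ (s : ℝ) := s.2.1
    have hs1 : (s : ℝ) ≤ 1 := s.2.2
    have hre := congrArg Complex.re h
    have him := congrArg Complex.im h
    simp only [H, planeMap, Complex.add_re, Complex.add_im, Complex.mul_re, Complex.mul_im,
      Complex.ofReal_re, Complex.ofReal_im, Complex.sub_re, Complex.sub_im, Complex.zero_re,
      Complex.zero_im, zero_mul, sub_zero, add_zero] at hre him
    have h1 : (u : ℂ).im * ((1 - s) + s * (ε / 2)) = 0 := by linarith
    have h2 : 0 < (1 - (s : ℝ)) + s * (ε / 2) := by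
      rcases eq_or_lt_of_le hs0 with h0 | h0
      · rw [← h0]; norm_num
      · have : 0 < (s : ℝ) * (ε / 2) := by positivity
        linarith
    have h3 : (u : ℂ).im = 0 := by
      rcases mul_eq_zero.mp h1 with h | h
      · exact h
      · exact absurd h h2.ne'
    have h4 : (u : ℂ).re ≠ 0 := by
      intro h5
      have h6 : (u : ℂ) = 0 := Complex.ext h5 h3
      have h7 := u.2
      rw [Metric.mem_sphere, h6, dist_self] at h7
      norm_num at h7
    rcases lt_or_gt_of_ne h4 with h5 | h5
    · have h6 : hat g ((z : ℂ).re + (ε / 2) * (u : ℂ).re) < hat g (z : ℂ).re := by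
        apply hat_strictMono g
        nlinarith
      rcases eq_or_lt_of_le hs0 with h0 | h0
      · rw [← h0] at hre
        simp at hre
        exact h4 hre
      · nlinarith [mul_nonneg (sub_nonneg.mpr hs1) (neg_nonneg.mpr h5.le), mul_pos h0 (sub_pos.mpr h6)]
    · have h6 : hat g (z : ℂ).re < hat g ((z : ℂ).re + (ε / 2) * (u : ℂ).re) := by
        apply hat_strictMono g
        nlinarith
      rcases eq_or_lt_of_le hs0 with h0 | h0
      · rw [← h0] at hre
        simp at hre
        exact h4 hre
      · nlinarith [mul_nonneg (sub_nonneg.mpr hs1) h5.le, mul_pos h0 (sub_pos.mpr h6)]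
  · intro u
    simp [H]
  · intro u w hw
    simp only [H, surfHom_coe, ← hw]
    simp

end

end Pool.Agent.Helper81.MCG
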