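import Pool.Agent.Helper81.MCG.Defs

set_option autoImplicit false

namespace Pool.Agent.Helper81.MCG

/-! ### Basic facts about amenability -/

section amen

variable {G H : Type*} [Group G] [Group H]

lemma amenable_of_surjective (f : G →* H) (hf : Function.Surjective f) (hG : Amenable G) :
    Amenable H := by
  obtain ⟨m, h0, h1, h2, h3⟩ := hG
  refine ⟨fun A => m (f ⁻¹' A), fun A => h0 _, by simpa using h1, fun A B hAB => ?_, fun g A => ?_⟩
  · simp only [Set.preimage_union]
    exact h2 _ _ (hAB.preimage f)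
  · obtain ⟨g', rfl⟩ := hf g
    beta_reduce
    rw [← h3 g' (f ⁻¹' A)]
    congr 1
    ext x
    simp only [Set.mem_preimage, Set.mem_image]
    constructor
    · rintro ⟨y, hy, hyx⟩
      refine ⟨g'⁻¹ * x, ?_, by group⟩
      have : f (g'⁻¹ * x) = y := by rw [map_mul, map_inv, ← hyx]; group
      rw [this]; exact hy
    · rintro ⟨y, hy, rfl⟩
      exact ⟨f y, hy, by rw [map_mul]⟩

lemma amenable_of_equivariant {K : Type*} [Group K] (f : K →* G) (κ : G → K)
    (hκ : ∀ k x, κ (f k * x) = k * κ x) (hG : Amenable G) : Amenable K := by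
  obtain ⟨m, h0, h1, h2, h3⟩ := hG
  refine ⟨fun A => m (κ ⁻¹' A), fun A => h0 _, by simpa using h1, fun A B hAB => ?_, fun g A => ?_⟩
  · simp only [Set.preimage_union]
    exact h2 _ _ (hAB.preimage κ)
  · beta_reduce
    rw [← h3 (f g) (κ ⁻¹' A)]
    congr 1
    ext x
    simp only [Set.mem_preimage, Set.mem_image]
    constructor
    · rintro ⟨y, hy, hyx⟩
      refine ⟨(f g)⁻¹ * x, ?_, by group⟩
      have e : κ ((f g)⁻¹ * x) = g⁻¹ * κ x := by rw [← map_inv, hκ]
      rw [e, ← hyx]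
      simpa using hy
    · rintro ⟨y, hy, rfl⟩
      exact ⟨κ y, hy, (hκ g y).symm⟩

lemma amenable_of_injective (f : H →* G) (hf : Function.Injective f) (hG : Amenable G) :
    Amenable H := by
  classical
  -- choose representatives of the right cosets of the range
  let r : G → G := fun x => (Quotient.mk (QuotientGroup.rightRel f.range) x).out
  have hr : ∀ x, ∃ k : H, f k * r x = x := by
    intro x
    have h1 : (QuotientGroup.rightRel f.range) (r x) x := Quotient.exact (Quotient.out_eq _)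
    rw [QuotientGroup.rightRel_apply] at h1
    obtain ⟨k, hk⟩ := h1
    exact ⟨k, by rw [hk]; group⟩
  choose κ hκ using hr
  have hrr : ∀ (k : H) (x : G), r (f k * x) = r x := by
    intro k x
    have : (Quotient.mk (QuotientGroup.rightRel f.range) (f k * x))
        = Quotient.mk (QuotientGroup.rightRel f.range) x := by
      apply Quotient.sound
      change (QuotientGroup.rightRel f.range) _ _
      rw [QuotientGroup.rightRel_apply]
      exact ⟨k⁻¹, by rw [map_inv]; group⟩
    simp only [r, this]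
  refine amenable_of_equivariant f κ (fun k x => ?_) hG
  apply hf
  have h1 := hκ (f k * x)
  rw [hrr] at h1
  have h2 := hκ x
  rw [map_mul]
  have h3 : f (κ (f k * x)) * r x = f k * f (κ x) * r x := by
    rw [h1, mul_assoc, h2]
  exact mul_right_cancel h3

end amen

/-! ### Basic facts about homogeneous quasimorphisms -/

section qm

variable {G : Type*} [Group G]

lemma qm_zpow (φ : homQM G) (g : G) (n : ℤ) : φ.1 (g ^ n) = n * φ.1 g := φ.2.2 g n

lemma qm_pow (φ : homQM G) (g : G) (n : ℕ) : φ.1 (g ^ n) = n * φ.1 g := by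
  have := qm_zpow φ g n
  simpa using this

lemma qm_one (φ : homQM G) : φ.1 1 = 0 := by
  have := qm_zpow φ 1 0
  simpa using this

lemma qm_inv (φ : homQM G) (g : G) : φ.1 g⁻¹ = - φ.1 g := by
  have := qm_zpow φ g (-1)
  simpa using this

lemma qm_defect (φ : homQM G) : ∃ D : ℝ, 0 ≤ D ∧ ∀ g h, |φ.1 (g * h) - φ.1 g - φ.1 h| ≤ D := by
  obtain ⟨D, hD⟩ := φ.2.1
  exact ⟨D, le_trans (abs_nonneg _) (hD 1 1), hD⟩

/-- archimedean trick -/
lemma eq_zero_of_mul_le {x C : ℝ} (h : ∀ n : ℕ, n * |x| ≤ C) : x = 0 := by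
  by_contra hx
  have hx' : 0 < |x| := abs_pos.mpr hx
  obtain ⟨n, hn⟩ := exists_nat_gt (C / |x|)
  have h1 := h n
  rw [div_lt_iff₀ hx'] at hn
  linarith

lemma qm_bounded (φ : homQM G) (g : G) (C : ℝ) (h : ∀ n : ℕ, |φ.1 (g ^ n)| ≤ C) : φ.1 g = 0 := by
  apply eq_zero_of_mul_le (C := C)
  intro n
  have := h n
  rw [qm_pow, abs_mul, Nat.abs_cast] at this
  exact this

lemma qm_conj (φ : homQM G) (g h : G) : φ.1 (h * g * h⁻¹) = φ.1 g := by
  obtain ⟨D, hD0, hD⟩ := qm_defect φ
  have key : φ.1 (h * g * h⁻¹) - φ.1 g = 0 := by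
    apply eq_zero_of_mul_le (C := 2 * D)
    intro n
    have e1 : (h * g * h⁻¹) ^ n = h * g ^ n * h⁻¹ := by
      rw [conj_pow]
    have h1 := hD (h * g ^ n) h⁻¹
    have h2 := hD h (g ^ n)
    have h3 := qm_inv φ h
    have h4 : φ.1 (h * g ^ n * h⁻¹) = n * φ.1 (h * g * h⁻¹) := by rw [← e1, qm_pow]
    have h5 := qm_pow φ g n
    rw [h3, h4] at h1
    rw [h5] at h2
    have : (n : ℝ) * |φ.1 (h * g * h⁻¹) - φ.1 g| = |n * φ.1 (h * g * h⁻¹) - n * φ.1 g| := by
      rw [← mul_sub, abs_mul, Nat.abs_cast]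
    rw [this]
    rw [abs_le] at h1 h2 ⊢
    constructor <;> linarith [h1.1, h1.2, h2.1, h2.2]
  linarith

lemma qm_comm (φ : homQM G) {g h : G} (hgh : Commute g h) : φ.1 (g * h) = φ.1 g + φ.1 h := by
  obtain ⟨D, hD0, hD⟩ := qm_defect φ
  have key : φ.1 (g * h) - φ.1 g - φ.1 h = 0 := by
    apply eq_zero_of_mul_le (C := D)
    intro n
    have h1 := hD (g ^ n) (h ^ n)
    rw [← hgh.mul_pow, qm_pow, qm_pow, qm_pow] at h1
    have : (n : ℝ) * |φ.1 (g * h) - φ.1 g - φ.1 h| = |n * φ.1 (g * h) - n * φ.1 g - n * φ.1 h| := by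
      rw [← mul_sub, ← mul_sub, abs_mul, Nat.abs_cast]
    rw [this]; exact h1
  linarith

/-- pull back of homogeneous quasimorphisms -/
def qmComap {H : Type*} [Group H] (f : H →* G) : homQM G →ₗ[ℝ] homQM H where
  toFun φ := ⟨fun x => φ.1 (f x), by
    obtain ⟨D, -, hD⟩ := qm_defect φ
    exact ⟨⟨D, fun g h => by beta_reduce; rw [map_mul]; exact hD _ _⟩,
      fun g n => by beta_reduce; rw [map_zpow, qm_zpow]⟩⟩
  map_add' φ ψ := rfl
  map_smul' c φ := rfl

@[simp] lemma qmComap_apply {H : Type*} [Group H] (f : H →* G) (φ : homQM G) (x : H) :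
    (qmComap f φ).1 x = φ.1 (f x) := rfl

/-- An isomorphism of groups induces an isomorphism of the spaces of homogeneous
quasimorphisms. -/
def qmEquiv {H : Type*} [Group H] (e : H ≃* G) : homQM G ≃ₗ[ℝ] homQM H :=
  LinearEquiv.ofLinearMap (qmComap e.toMonoidHom) (qmComap e.symm.toMonoidHom)
    (by ext φ x; simp) (by ext φ x; simp)

/-- `Q̃` is invariant under isomorphism. -/
def qtildeEquiv {H : Type*} [Group H] (e : H ≃* G) : QTilde G ≃ₗ[ℝ] QTilde H :=
  Submodule.Quotient.equiv (homs G) (homs H) (qmEquiv e) (by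
    ext φ
    constructor
    · rintro ⟨ψ, hψ, rfl⟩ g h
      change ψ.1 (e (g * h)) = ψ.1 (e g) + ψ.1 (e h)
      rw [map_mul]
      exact hψ _ _
    · intro hφ
      refine ⟨(qmEquiv e).symm φ, ?_, by simp⟩
      intro g h
      change φ.1 (e.symm (g * h)) = φ.1 (e.symm g) + φ.1 (e.symm h)
      rw [map_mul]
      exact hφ _ _)

end qm

end Pool.Agent.Helper81.MCG
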